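import Pool.Agent.Lib.BSDP.Def

/-!
Module D.Cyc of MP_48b749_nt (positive proportion). A `3 × 3` matrix over a field without cyclic
vector is a scalar plus a matrix of rank `≤ 1`. Pure linear algebra.

PROOF. Let `T u = Matrix.vecMul u M` on `V = κ ^ 3`, and assume that `u, T u, T² u` are linearly
dependent for all `u`. We look for `ξ` such that `T - ξ` has rank `≤ 1`, i.e. all `2 × 2` minors of
`M - ξ` vanish (adjugate `0`).
(a) If `u, T u` are dependent for all `u`, `T` is a scalar `ξ` (standard), adjugate of `0` is `0`.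
(b) Let `u, T u` be independent, `W` their span; `T² u = α T u + β u`. Choose `w ∉ W`,
`T w = ξ w + w'`, `w' ∈ W`. Let `p (X) = X ^ 2 - α X - β`.
 (b1) If `p (ξ) ≠ 0` then `T - ξ` is bijective on `W` and after adding to `w` an element of `W` we
 may assume `w' = 0`. For `v = u + w`: `v, T v, T² v` have coordinates `(1,0,1), (0,1,ξ), (β,α,ξ²)`
 in the basis `u, T u, w`, determinant `ξ² - α ξ - β = p (ξ) ≠ 0`: contradiction.
 (b2) `p (ξ) = 0`, `p = (X - ξ) (X - ξ')`. `e = T u - ξ u ≠ 0`, `T e = ξ' e`, `W = span (u, e)`,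
 `(T - ξ) W = span e`. Write `w' = y u + x e`. If `y = 0` the image of `T - ξ` is `span e`: rank `1`,
 done. If `y ≠ 0`: `(T - ξ) w = y u + x e`, `(T - ξ)² w = (y + x (ξ' - ξ)) e`. If
 `y + x (ξ' - ξ) ≠ 0` then `w, (T - ξ) w, (T - ξ)² w` is a basis: contradiction (`det (v, T v, T² v)
 = det (v, (T - ξ) v, (T - ξ)² v)`). If `y + x (ξ' - ξ) = 0` then `ξ' ≠ ξ`; for `v = w + u`:
 `(T - ξ) v = y u + (x + 1) e`, `(T - ξ)² v = (ξ' - ξ) e`, again a basis: contradiction.
(An alternative for Lean: the `10` coefficients of the cubic form `det (u, T u, T² u)` may be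
obtained from values at `e_i, e_i ± e_j, …`; choose what is easiest.)
-/

set_option autoImplicit false

open Polynomial

namespace Pool.Agent.BSDP

/-- the determinant of `u, u M, u M ^ 2` -/
def cycDet {S : Type} [CommRing S] (M : Matrix (Fin 3) (Fin 3) S) (u : Fin 3 → S) : S :=
  (Matrix.of ![u, Matrix.vecMul u M, Matrix.vecMul (Matrix.vecMul u M) M]).det

private theorem cyc_conj {κ : Type} [Field κ] (M N P : Matrix (Fin 3) (Fin 3) κ)
    (hNP : N * P = P * M) (v : Fin 3 → κ) :
    cycDet N v * P.det = cycDet M (Matrix.vecMul v P) := by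
  unfold cycDet
  rw [← Matrix.det_mul]
  congr 1
  have h1 : Matrix.vecMul (Matrix.vecMul v N) P = Matrix.vecMul (Matrix.vecMul v P) M := by
    rw [Matrix.vecMul_vecMul, Matrix.vecMul_vecMul, hNP]
  have h2 : Matrix.vecMul (Matrix.vecMul (Matrix.vecMul v N) N) P =
      Matrix.vecMul (Matrix.vecMul (Matrix.vecMul v P) M) M := by
    rw [← h1, Matrix.vecMul_vecMul _ N P, hNP, ← Matrix.vecMul_vecMul _ P M]
  ext i j
  rw [Matrix.mul_apply_eq_vecMul]
  fin_cases i
  · rfl
  · exact congrFun h1 j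
  · exact congrFun h2 j

private theorem cyc_nf {κ : Type} [Field κ] (b a y x r : κ)
    (h : ∀ u : Fin 3 → κ, cycDet !![0, 1, 0; b, a, 0; y, x, r] u = 0) :
    (!![0, 1, 0; b, a, 0; y, x, r] - r • (1 : Matrix (Fin 3) (Fin 3) κ)).adjugate = 0 := by
  have key : ∀ c d : κ, (y + (d * b - r * c)) ^ 2 + a * (y + (d * b - r * c)) * (x + (c + (a - r) * d))
      - b * (x + (c + (a - r) * d)) ^ 2 = 0 := by
    intro c d
    have := h ![c, d, 1]
    unfold cycDet at this
    simp only [Matrix.det_fin_three, Matrix.of_apply, Matrix.cons_val', Matrix.cons_val_zero,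
      Matrix.cons_val_one, Matrix.cons_val, Matrix.vecMul, dotProduct, Fin.sum_univ_three,
      Matrix.cons_val_fin_one] at this
    linear_combination this
  have hp : r ^ 2 - a * r - b = 0 := by
    by_contra hne
    have hD : (r ^ 2 - a * r - b) * (r ^ 2 - a * r - b)⁻¹ = 1 := mul_inv_cancel₀ hne
    have := key (((a - r) * (1 - y) + b * x) * (r ^ 2 - a * r - b)⁻¹)
      ((-(1 - y) + r * x) * (r ^ 2 - a * r - b)⁻¹)
    have e1 : y + ((-(1 - y) + r * x) * (r ^ 2 - a * r - b)⁻¹ * b -
        r * (((a - r) * (1 - y) + b * x) * (r ^ 2 - a * r - b)⁻¹)) = 1 := by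
      linear_combination (1 - y) * hD
    have e2 : x + (((a - r) * (1 - y) + b * x) * (r ^ 2 - a * r - b)⁻¹ +
        (a - r) * ((-(1 - y) + r * x) * (r ^ 2 - a * r - b)⁻¹)) = 0 := by
      linear_combination -x * hD
    rw [e1, e2] at this
    norm_num at this
  have k0 := key 0 0
  have k1 := key 1 0
  have hb : b = r ^ 2 - a * r := by linear_combination -hp
  subst hb
  have hm : y + r * x = 0 := by
    by_contra hne
    have f0 : (y + r * x) * (y + (a - r) * x) = 0 := by linear_combination k0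
    have f1 : (y + r * x) * (y + (a - r) * x + (a - 2 * r)) = 0 := by linear_combination k1
    have g0 := (mul_eq_zero.mp f0).resolve_left hne
    have g1 := (mul_eq_zero.mp f1).resolve_left hne
    apply hne
    linear_combination g0 + (-x) * (g1 - g0)
  have hy : y = -(r * x) := by linear_combination hm
  subst hy
  rw [Matrix.adjugate_fin_three]
  ext i j
  fin_cases i <;> fin_cases j <;> simp <;> ring

theorem exists_rank_le_one {κ : Type} [Field κ] (M : Matrix (Fin 3) (Fin 3) κ)
    (h : ∀ u : Fin 3 → κ, cycDet M u = 0) :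
    ∃ ξ : κ, (M - ξ • (1 : Matrix (Fin 3) (Fin 3) κ)).adjugate = 0 := by
  by_cases h2 : ∀ (u w : Fin 3 → κ), (Matrix.of ![u, Matrix.vecMul u M, w]).det = 0
  · refine ⟨M 0 0, ?_⟩
    have e : ∀ u w : Fin 3 → κ, (Matrix.of ![u, Matrix.vecMul u M, w]).det = 0 := h2
    simp only [Matrix.det_fin_three, Matrix.of_apply, Matrix.cons_val', Matrix.cons_val_zero,
      Matrix.cons_val_one, Matrix.cons_val, Matrix.vecMul, dotProduct, Fin.sum_univ_three,
      Matrix.cons_val_fin_one] at e
    have a1 := e ![1, 0, 0] ![0, 1, 0]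
    have a2 := e ![1, 0, 0] ![0, 0, 1]
    have b1 := e ![0, 1, 0] ![1, 0, 0]
    have b2 := e ![0, 1, 0] ![0, 0, 1]
    have c1 := e ![0, 0, 1] ![1, 0, 0]
    have c2 := e ![0, 0, 1] ![0, 1, 0]
    have d1 := e ![1, 1, 0] ![0, 0, 1]
    have d2 := e ![1, 0, 1] ![0, 1, 0]
    simp at a1 a2 b1 b2 c1 c2 d1 d2
    have hM : M = M 0 0 • (1 : Matrix (Fin 3) (Fin 3) κ) := by
      ext i j
      fin_cases i <;> fin_cases j <;> simp [*]
      · simp only [a1, a2, b2, c2] at d1 d2
        linear_combination d1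
      · simp only [a1, a2, b2, c2] at d1 d2
        linear_combination -d2
    have : M - M 0 0 • (1 : Matrix (Fin 3) (Fin 3) κ) = 0 := by
      rw [sub_eq_zero]
      exact hM
    rw [this, Matrix.adjugate_zero]
  · push Not at h2
    obtain ⟨u, w, hdet⟩ := h2
    set P : Matrix (Fin 3) (Fin 3) κ := Matrix.of ![u, Matrix.vecMul u M, w] with hP
    have hPu : IsUnit P.det := isUnit_iff_ne_zero.mpr hdet
    set N : Matrix (Fin 3) (Fin 3) κ := P * M * P⁻¹ with hN
    have hNP : N * P = P * M := by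
      rw [hN, Matrix.mul_assoc, Matrix.nonsing_inv_mul P hPu, Matrix.mul_one]
    have hinj : ∀ v v' : Fin 3 → κ, Matrix.vecMul v P = Matrix.vecMul v' P → v = v' := by
      intro v v' hv
      have := congrArg (fun z => Matrix.vecMul z P⁻¹) hv
      simpa only [Matrix.vecMul_vecMul, Matrix.mul_nonsing_inv P hPu, Matrix.vecMul_one] using this
    have hcyc : ∀ v : Fin 3 → κ, cycDet N v = 0 := by
      intro v
      have := cyc_conj M N P hNP v
      rw [h] at this
      exact (mul_eq_zero.mp this).resolve_right hdet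
    -- row 0
    have hr0 : N 0 = ![0, 1, 0] := by
      apply hinj
      have h1 : Matrix.vecMul (N 0) P = (N * P) 0 := (Matrix.mul_apply_eq_vecMul N P 0).symm
      rw [h1, hNP, Matrix.mul_apply_eq_vecMul]
      ext j
      simp [hP, Matrix.vecMul, dotProduct, Fin.sum_univ_three]
    have hr1 : N 1 2 = 0 := by
      have := hcyc ![1, 0, 0]
      have h00 : N 0 0 = 0 := by rw [hr0]; rfl
      have h01 : N 0 1 = 1 := by rw [hr0]; rfl
      have h02 : N 0 2 = 0 := by rw [hr0]; rfl
      unfold cycDet at this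
      simp only [Matrix.det_fin_three, Matrix.of_apply, Matrix.cons_val', Matrix.cons_val_zero,
        Matrix.cons_val_one, Matrix.cons_val, Matrix.vecMul, dotProduct, Fin.sum_univ_three,
        Matrix.cons_val_fin_one, h00, h01, h02] at this
      linear_combination this
    have hNnf : N = !![0, 1, 0; N 1 0, N 1 1, 0; N 2 0, N 2 1, N 2 2] := by
      have h00 : N 0 0 = 0 := by rw [hr0]; rfl
      have h01 : N 0 1 = 1 := by rw [hr0]; rfl
      have h02 : N 0 2 = 0 := by rw [hr0]; rfl
      ext i j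
      fin_cases i <;> fin_cases j <;> simp [h00, h01, h02, hr1]
    have hadj : (N - N 2 2 • (1 : Matrix (Fin 3) (Fin 3) κ)).adjugate = 0 := by
      have := cyc_nf (N 1 0) (N 1 1) (N 2 0) (N 2 1) (N 2 2) (by rw [← hNnf]; exact hcyc)
      rw [← hNnf] at this
      exact this
    refine ⟨N 2 2, ?_⟩
    have hMN : M - N 2 2 • (1 : Matrix (Fin 3) (Fin 3) κ) =
        P⁻¹ * ((N - N 2 2 • (1 : Matrix (Fin 3) (Fin 3) κ)) * P) := by
      rw [Matrix.sub_mul, hNP, Matrix.mul_sub, ← Matrix.mul_assoc, Matrix.nonsing_inv_mul P hPu,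
        Matrix.one_mul, Matrix.smul_mul, Matrix.one_mul, Matrix.mul_smul,
        Matrix.nonsing_inv_mul P hPu]
    rw [hMN, Matrix.adjugate_mul_distrib, Matrix.adjugate_mul_distrib, hadj, Matrix.mul_zero,
      Matrix.zero_mul]

end Pool.Agent.BSDP
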