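import Pool.Agent.Lib.BSDP.D.Ord
import Pool.Agent.Lib.BSDP.D.Cyc
import Pool.Agent.Lib.BSDP.A.Quin

/-!
Module D.CV of MP_48b749_nt (positive proportion). If `4 A ^ 3 + 27 B ^ 2` is divisible at most once
by the uniformizer, every good lattice is generated by one element: the class is a unit of `O[θ]`
up to squares.

PROOF of `exists_cyclic`. Suppose `v (cycDet M u) < 1` for all `u` with entries in `O`. Reduce modulo
the maximal ideal (`κ` = residue field, every vector over `κ` lifts): `cycDet M̄ ū = 0` for all `ū`,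
so by `exists_rank_le_one` there is `ξ̄`; lift it to `ξ ∈ O` and put `N = M - ξ • 1`: all entries of
`adjugate N` have valuation `< 1`, so `adjugate N = pi • N'` with `N'` over `O` (`L.pi_gen`).
`det (adjugate N) = (det N) ^ 2` (`Matrix.det_adjugate`), so `(det N) ^ 2 = pi ^ 3 det N'`, hence
`det N = 0` or `2 ord (det N) ≥ 3`, `ord (det N) ≥ 2`: in any case `v (det N) ≤ v (pi ^ 2)`.
From `tr M = 0`, `tr (M M) = - 2 A`, `det M = - B` one gets for `3 × 3` matrices
`det (M - ξ) = - (ξ ^ 3 + A ξ + B)` and `tr (adjugate (M - ξ)) = 3 ξ ^ 2 + A` (multiply the second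
coefficient identity by `2` and cancel, `2 ≠ 0`; `Matrix.det_fin_three`, `adjugate_fin_three`). So
`f = ξ ^ 3 + A ξ + B` has `v f ≤ v (pi ^ 2)` and `f' = 3 ξ ^ 2 + A` has `v f' ≤ v pi`. The identity
`4 A ^ 3 + 27 B ^ 2 = f * (27 * (B - ξ ^ 3 - A * ξ) + 54 * … ) + f' ^ 2 * (4 f' - 9 ξ ^ 2)`: precisely
with `B = f - ξ ^ 3 - A ξ`, `A = f' - 3 ξ ^ 2`: `B = f + (2 ξ ^ 3 - f' ξ)`, so
`27 B ^ 2 = 27 f * (f + 2 (2 ξ ^ 3 - f' ξ)) + 27 (2 ξ ^ 3 - f' ξ) ^ 2` and
`4 (f' - 3 ξ ^ 2) ^ 3 + 27 (2 ξ ^ 3 - f' ξ) ^ 2 = f' ^ 2 (4 f' - 9 ξ ^ 2)`. Hence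
`v (4 A ^ 3 + 27 B ^ 2) ≤ v (pi ^ 2)`, a contradiction.
PROOF of `unit_of_good`. Let `P = coord b`, `det P ≠ 0` (from `det_gram1`, a unit),
`M = P * thMat A B * P⁻¹`, `gram2 γ b = M * gram1 γ b` (`gram2_eq`), so
`M = gram2 γ b * (gram1 γ b)⁻¹` has entries in `O`; trace, trace of the square and determinant are
those of `thMat`. Take `u` from `exists_cyclic` and `κ = u 0 • b 0 + u 1 • b 1 + u 2 • b 2`. By
`exists_th`, `θ κ = Σ (vecMul u M) j • b j`, etc., so `(κ, θ κ, θ² κ) = chb U b` with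
`U = Matrix.of ![u, vecMul u M, …]`, `v (det U) = 1`. Put `ε = γ * κ * κ`. Then
`gram1 ε (std A B) = gram1 γ (fun i => κ * std i) = U * gram1 γ b * Uᵀ` has entries in `O` and unit
determinant `- norm ε`. The entries `c₂ (ε), c₂ (ε θ), c₂ (ε θ ^ 2)` are `ε.z, ε.y, ε.x - A ε.z`, so
`ε` has coordinates in `O`. `norm κ ≠ 0` (`norm ε = norm γ * norm κ ^ 2`). With `κ ρ = 1`:
`γ = ε * ρ * ρ`.
-/

set_option autoImplicit false

open Polynomial

namespace Pool.Agent.BSDP

variable {F : Type} [Field F] (L : Loc F) {A B : F}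

private theorem cycDet_map {S T : Type} [CommRing S] [CommRing T] (f : S →+* T)
    (M : Matrix (Fin 3) (Fin 3) S) (u : Fin 3 → S) :
    cycDet (M.map f) (fun i => f (u i)) = f (cycDet M u) := by
  have h : ∀ w : Fin 3 → S, Matrix.vecMul (fun i => f (w i)) (M.map f) =
      fun i => f (Matrix.vecMul w M i) := by
    intro w
    ext j
    rw [RingHom.map_vecMul]
    rfl
  unfold cycDet
  rw [RingHom.map_det, h, h]
  congr 1
  ext i j
  fin_cases i <;> rfl

private theorem charid (h2 : (2 : F) ≠ 0) (M : Matrix (Fin 3) (Fin 3) F) (h0 : M.trace = 0)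
    (h1 : (M * M).trace = -2 * A) (h3 : M.det = -B) (ξ : F) :
    (M - ξ • (1 : Matrix (Fin 3) (Fin 3) F)).det = -(ξ ^ 3 + A * ξ + B) ∧
    (M - ξ • (1 : Matrix (Fin 3) (Fin 3) F)).adjugate.trace = 3 * ξ ^ 2 + A := by
  have hM := Matrix.eta_fin_three M
  generalize M 0 0 = a at hM
  generalize M 0 1 = b at hM
  generalize M 0 2 = c at hM
  generalize M 1 0 = d at hM
  generalize M 1 1 = e at hM
  generalize M 1 2 = f at hM
  generalize M 2 0 = g at hM
  generalize M 2 1 = h at hM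
  generalize M 2 2 = i at hM
  subst hM
  have hN : !![a, b, c; d, e, f; g, h, i] - ξ • (1 : Matrix (Fin 3) (Fin 3) F) =
      !![a - ξ, b, c; d, e - ξ, f; g, h, i - ξ] := by
    rw [Matrix.one_fin_three]
    ext r s
    fin_cases r <;> fin_cases s <;> simp
  rw [hN]
  simp only [Matrix.trace_fin_three, Matrix.mul_apply, Fin.sum_univ_three, Matrix.of_apply,
    Matrix.cons_val', Matrix.cons_val_zero, Matrix.cons_val_one, Matrix.cons_val] at h0 h1
  rw [Matrix.det_fin_three] at h3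
  simp only [Matrix.of_apply,
    Matrix.cons_val', Matrix.cons_val_zero, Matrix.cons_val_one, Matrix.cons_val] at h3
  constructor
  · apply mul_left_cancel₀ h2
    rw [Matrix.det_fin_three]
    simp only [Matrix.of_apply,
      Matrix.cons_val', Matrix.cons_val_zero, Matrix.cons_val_one, Matrix.cons_val]
    linear_combination 2 * h3 + ξ * h1 + (2 * ξ ^ 2 - ξ * (a + e + i)) * h0
  · apply mul_left_cancel₀ h2
    rw [Matrix.trace_fin_three, Matrix.adjugate_fin_three]
    simp only [Matrix.of_apply,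
      Matrix.cons_val', Matrix.cons_val_zero, Matrix.cons_val_one, Matrix.cons_val]
    linear_combination -h1 + ((a + e + i) - 4 * ξ) * h0

include L in
private theorem loc_two_ne : (2 : F) ≠ 0 := by
  intro h
  have := L.two
  rw [h, map_zero] at this
  exact zero_ne_one this

theorem Loc.exists_cyclic (hA : A ∈ L.O) (hB : B ∈ L.O)
    (hΔ : L.O.valuation (L.pi ^ 2) < L.O.valuation (4 * A ^ 3 + 27 * B ^ 2))
    (M : Matrix (Fin 3) (Fin 3) F) (hM : ∀ i j, M i j ∈ L.O) (h0 : M.trace = 0)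
    (h1 : (M * M).trace = -2 * A) (h3 : M.det = -B) :
    ∃ u : Fin 3 → F, (∀ i, u i ∈ L.O) ∧ L.O.valuation (cycDet M u) = 1 := by
  by_contra hcon
  push Not at hcon
  obtain ⟨MO, hMO⟩ : ∃ MO : Matrix (Fin 3) (Fin 3) L.O, MO.map L.O.subtype = M :=
    ⟨Matrix.of fun i j => ⟨M i j, hM i j⟩, by ext i j; rfl⟩
  have hres : ∀ x : L.O, IsLocalRing.residue L.O x = 0 ↔ L.O.valuation (x : F) < 1 := by
    intro x
    rw [IsLocalRing.residue_eq_zero_iff, L.O.valuation_lt_one_iff]
  have hcyc : ∀ u : Fin 3 → IsLocalRing.ResidueField L.O,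
      cycDet (MO.map (IsLocalRing.residue L.O)) u = 0 := by
    intro u
    obtain ⟨w, hw⟩ : ∃ w : Fin 3 → L.O, ∀ i, IsLocalRing.residue L.O (w i) = u i :=
      ⟨fun i => (IsLocalRing.residue_surjective (u i)).choose,
        fun i => (IsLocalRing.residue_surjective (u i)).choose_spec⟩
    have hu : u = fun i => IsLocalRing.residue L.O (w i) := funext fun i => (hw i).symm
    rw [hu, cycDet_map, hres]
    have h := hcon (fun i => (w i : F)) fun i => (w i).2
    have h' : cycDet M (fun i => (w i : F)) = ((cycDet MO w : L.O) : F) := by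
      rw [← hMO]
      exact cycDet_map L.O.subtype MO w
    rw [h'] at h
    exact lt_of_le_of_ne (L.O.valuation_le_one _) h
  obtain ⟨ξb, hξb⟩ := exists_rank_le_one _ hcyc
  obtain ⟨ξ, rfl⟩ := IsLocalRing.residue_surjective ξb
  obtain ⟨N, hN⟩ : ∃ N : Matrix (Fin 3) (Fin 3) L.O, N = MO - ξ • (1 : Matrix _ _ L.O) := ⟨_, rfl⟩
  have hNres : N.map (IsLocalRing.residue L.O) = MO.map (IsLocalRing.residue L.O) -
      IsLocalRing.residue L.O ξ • (1 : Matrix _ _ _) := by
    rw [hN]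
    ext i j
    by_cases hij : i = j
    · subst hij; simp
    · simp [hij]
  have hNF : N.map L.O.subtype = M - (ξ : F) • (1 : Matrix _ _ F) := by
    rw [hN, ← hMO]
    ext i j
    by_cases hij : i = j
    · subst hij; simp
    · simp [hij]
  have hadj : ∀ i j, ∃ y : L.O, ((N.adjugate i j : L.O) : F) = L.pi * y := by
    intro i j
    have h := congrFun (congrFun hξb i) j
    rw [← hNres, ← RingHom.mapMatrix_apply, ← RingHom.map_adjugate] at h
    have h' : IsLocalRing.residue L.O (N.adjugate i j) = 0 := h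
    rw [hres, L.pi_gen] at h'
    obtain ⟨y, hy, hy'⟩ := h'
    exact ⟨⟨y, hy⟩, hy'⟩
  choose N' hN' using hadj
  have hadjF : (N.map L.O.subtype).adjugate =
      L.pi • ((Matrix.of N').map L.O.subtype) := by
    ext i j
    have h := hN' i j
    rw [← RingHom.mapMatrix_apply, ← RingHom.map_adjugate]
    exact h
  obtain ⟨c1, c2⟩ := charid (loc_two_ne L) M h0 h1 h3 (ξ : F)
  rw [← hNF] at c1 c2
  obtain ⟨f, hf⟩ : ∃ f, f = (ξ : F) ^ 3 + A * ξ + B := ⟨_, rfl⟩
  obtain ⟨f', hf'⟩ : ∃ f', f' = 3 * (ξ : F) ^ 2 + A := ⟨_, rfl⟩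
  rw [← hf] at c1
  rw [← hf'] at c2
  have hpiO : L.O.valuation L.pi ≤ 1 := L.pi_lt.le
  -- f' is divisible by pi
  have hvf' : L.O.valuation f' ≤ L.O.valuation L.pi := by
    rw [← c2, hadjF, Matrix.trace_smul, smul_eq_mul, map_mul]
    have : ((Matrix.of N').map L.O.subtype).trace = (((Matrix.of N').trace : L.O) : F) := by
      simp [Matrix.trace_fin_three]
    rw [this]
    exact mul_le_of_le_one_right' (L.O.valuation_le_one _)
  -- f is divisible by pi ^ 2
  have hvf : L.O.valuation f ≤ L.O.valuation (L.pi ^ 2) := by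
    have hd := Matrix.det_adjugate (N.map L.O.subtype)
    rw [hadjF, Matrix.det_smul, c1] at hd
    simp only [Fintype.card_fin] at hd
    have hd' : ((Matrix.of N').map L.O.subtype).det = (((Matrix.of N').det : L.O) : F) := by
      rw [← RingHom.mapMatrix_apply, ← RingHom.map_det]
      rfl
    rw [hd'] at hd
    by_contra hlt
    rw [not_le] at hlt
    have hf0 : f ≠ 0 := by
      rintro rfl
      rw [map_zero] at hlt
      exact not_lt_zero hlt
    have hp2 : L.pi ^ 2 ≠ 0 := pow_ne_zero 2 L.pi_ne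
    rw [L.val_lt_iff hp2 hf0, L.ord_pow L.pi_ne, L.ord_pi] at hlt
    have hdn : (((Matrix.of N').det : L.O) : F) ≠ 0 := by
      intro h
      rw [h, mul_zero] at hd
      have : (-f) ^ 2 = 0 := by rw [hd]
      exact (pow_ne_zero 2 (neg_ne_zero.2 hf0)) this
    have ho := congrArg L.ord hd
    rw [L.ord_mul (pow_ne_zero 3 L.pi_ne) hdn, L.ord_pow L.pi_ne, L.ord_pi,
      show (3 - 1 : ℕ) = 2 from rfl, neg_sq, L.ord_pow hf0] at ho
    have hnn : 0 ≤ L.ord (((Matrix.of N').det : L.O) : F) :=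
      (L.mem_iff_ord hdn).1 ((Matrix.of N').det).2
    push_cast at ho hlt
    omega
  -- conclusion
  have hξ : L.O.valuation (ξ : F) ≤ 1 := L.O.valuation_le_one _
  have hid : 4 * A ^ 3 + 27 * B ^ 2 = 27 * (f * (f + 2 * (2 * (ξ : F) ^ 3 - f' * ξ))) +
      f' ^ 2 * (4 * f' - 9 * (ξ : F) ^ 2) := by
    rw [hf, hf']
    ring
  have hfO : f ∈ L.O := by
    rw [hf]
    exact add_mem (add_mem (pow_mem ξ.2 3) (mul_mem hA ξ.2)) hB
  have hfO' : f' ∈ L.O := by
    rw [hf']
    exact add_mem (mul_mem (natCast_mem L.O 3) (pow_mem ξ.2 2)) hA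
  have hnum : ∀ n : ℕ, (n : F) ∈ L.O := fun n => natCast_mem L.O n
  have h27 : (27 : F) ∈ L.O := by exact_mod_cast hnum 27
  have h4' : (4 : F) ∈ L.O := by exact_mod_cast hnum 4
  have h9' : (9 : F) ∈ L.O := by exact_mod_cast hnum 9
  have h2' : (2 : F) ∈ L.O := by exact_mod_cast hnum 2
  have e1 : f + 2 * (2 * (ξ : F) ^ 3 - f' * ξ) ∈ L.O :=
    add_mem hfO (mul_mem h2' (sub_mem (mul_mem h2' (pow_mem ξ.2 3)) (mul_mem hfO' ξ.2)))
  have e2 : 4 * f' - 9 * (ξ : F) ^ 2 ∈ L.O :=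
    sub_mem (mul_mem h4' hfO') (mul_mem h9' (pow_mem ξ.2 2))
  have hv : ∀ {x : F}, x ∈ L.O → L.O.valuation x ≤ 1 := fun {x} hx =>
    (L.O.valuation_le_one_iff x).2 hx
  apply absurd hΔ
  rw [not_lt, hid]
  refine (L.O.valuation.map_add _ _).trans (max_le ?_ ?_)
  · rw [map_mul, map_mul]
    calc L.O.valuation 27 * (L.O.valuation f * L.O.valuation _)
        ≤ 1 * (L.O.valuation (L.pi ^ 2) * 1) :=
          mul_le_mul' (hv h27) (mul_le_mul' hvf (hv e1))
      _ = L.O.valuation (L.pi ^ 2) := by rw [one_mul, mul_one]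
  · rw [map_mul, map_pow]
    calc L.O.valuation f' ^ 2 * L.O.valuation _
        ≤ L.O.valuation L.pi ^ 2 * 1 := mul_le_mul' (pow_le_pow_left' hvf' 2) (hv e2)
      _ = L.O.valuation (L.pi ^ 2) := by rw [mul_one, map_pow]

private theorem det_mem (R : Subring F) (M : Matrix (Fin 3) (Fin 3) F) (h : ∀ i j, M i j ∈ R) :
    M.det ∈ R ∧ ∀ i j, M.adjugate i j ∈ R := by
  obtain ⟨MR, hMR⟩ : ∃ MR : Matrix (Fin 3) (Fin 3) R, MR.map R.subtype = M :=
    ⟨Matrix.of fun i j => ⟨M i j, h i j⟩, by ext i j; rfl⟩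
  rw [← hMR]
  constructor
  · rw [← RingHom.mapMatrix_apply, ← RingHom.map_det]
    exact (MR.det).2
  · intro i j
    rw [← RingHom.mapMatrix_apply, ← RingHom.map_adjugate]
    exact (MR.adjugate i j).2

private theorem mul_mem' (R : Subring F) {M N : Matrix (Fin 3) (Fin 3) F}
    (h : ∀ i j, M i j ∈ R) (h' : ∀ i j, N i j ∈ R) : ∀ i j, (M * N) i j ∈ R := by
  intro i j
  rw [Matrix.mul_apply]
  exact sum_mem fun k _ => mul_mem (h i k) (h' k j)

theorem Loc.unit_of_good (hA : A ∈ L.O) (hB : B ∈ L.O)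
    (hΔ : L.O.valuation (L.pi ^ 2) < L.O.valuation (4 * A ^ 3 + 27 * B ^ 2))
    {γ : Cu A B} {b : Fin 3 → Cu A B} (h : Good L.O.toSubring γ b) : UnitAt L γ := by
  obtain ⟨u1, hu1, hu1'⟩ := h.unit
  have hdetO : (gram1 γ b).det ∈ L.O.toSubring := (det_mem _ _ h.g1).1
  have hdet0 : (gram1 γ b).det ≠ 0 := by
    intro h0
    rw [h0, mul_zero] at hu1'
    exact zero_ne_one hu1'
  have hvdet : L.O.valuation (gram1 γ b).det = 1 := by
    have h1 : L.O.valuation u1 ≤ 1 := (L.O.valuation_le_one_iff _).2 hu1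
    have h2 : L.O.valuation (gram1 γ b).det ≤ 1 := (L.O.valuation_le_one_iff _).2 hdetO
    have h3 : L.O.valuation u1 * L.O.valuation (gram1 γ b).det = 1 := by
      rw [← map_mul, hu1', map_one]
    refine le_antisymm h2 ?_
    calc (1 : _) = L.O.valuation u1 * L.O.valuation (gram1 γ b).det := h3.symm
      _ ≤ 1 * L.O.valuation (gram1 γ b).det := mul_le_mul' h1 le_rfl
      _ = _ := one_mul _
  have hP : (coord b).det ≠ 0 := by
    intro h0
    apply hdet0
    rw [det_gram1, h0]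
    ring
  obtain ⟨M, hM⟩ : ∃ M, M = coord b * thMat A B * (coord b)⁻¹ := ⟨_, rfl⟩
  have hPu : IsUnit (coord b).det := isUnit_iff_ne_zero.2 hP
  have hg2 : gram2 γ b = M * gram1 γ b := by rw [hM]; exact gram2_eq γ b hP
  have hMeq : M = gram2 γ b * (u1 • (gram1 γ b).adjugate) := by
    rw [hg2, Matrix.mul_assoc, Matrix.mul_smul, Matrix.mul_adjugate, smul_smul, hu1', one_smul,
      Matrix.mul_one]
  have hMO : ∀ i j, M i j ∈ L.O.toSubring := by
    rw [hMeq]
    refine mul_mem' _ h.g2 fun i j => ?_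
    rw [Matrix.smul_apply, smul_eq_mul]
    exact mul_mem hu1 ((det_mem _ _ h.g1).2 i j)
  have hMtr : M.trace = 0 := by
    rw [hM, Matrix.trace_mul_comm, ← Matrix.mul_assoc, Matrix.nonsing_inv_mul _ hPu,
      Matrix.one_mul, trace_thMat]
  have hMM : M * M = coord b * (thMat A B * thMat A B) * (coord b)⁻¹ := by
    rw [hM]
    calc coord b * thMat A B * (coord b)⁻¹ * (coord b * thMat A B * (coord b)⁻¹)
        = coord b * thMat A B * ((coord b)⁻¹ * coord b) * thMat A B * (coord b)⁻¹ := by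
          simp only [Matrix.mul_assoc]
      _ = _ := by rw [Matrix.nonsing_inv_mul _ hPu]; simp only [Matrix.mul_assoc, Matrix.one_mul]
  have hMtr2 : (M * M).trace = -2 * A := by
    rw [hMM, Matrix.trace_mul_comm, ← Matrix.mul_assoc, Matrix.nonsing_inv_mul _ hPu,
      Matrix.one_mul, trace_thMat_sq]
  have hMdet : M.det = -B := by
    rw [hM, Matrix.det_mul, Matrix.det_mul, mul_comm (coord b).det, mul_assoc, ← Matrix.det_mul,
      Matrix.mul_nonsing_inv _ hPu, Matrix.det_one, mul_one, det_thMat]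
  obtain ⟨u, hu, huc⟩ := L.exists_cyclic hA hB hΔ M hMO hMtr hMtr2 hMdet
  obtain ⟨κ, hκ⟩ : ∃ κ, κ = u 0 • b 0 + u 1 • b 1 + u 2 • b 2 := ⟨_, rfl⟩
  have hth : ∀ i, Cu.th A B * b i = chb M b i := by rw [hM]; exact exists_th b hP
  -- multiplication by theta of a combination
  have hcomb : ∀ w : Fin 3 → F, Cu.th A B * (w 0 • b 0 + w 1 • b 1 + w 2 • b 2) =
      Matrix.vecMul w M 0 • b 0 + Matrix.vecMul w M 1 • b 1 + Matrix.vecMul w M 2 • b 2 := by
    intro w
    have h0 := hth 0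
    have h1 := hth 1
    have h2 := hth 2
    simp only [chb] at h0 h1 h2
    rw [mul_add, mul_add, mul_smul_comm, mul_smul_comm, mul_smul_comm, h0, h1, h2]
    simp only [Matrix.vecMul, dotProduct, Fin.sum_univ_three]
    module
  obtain ⟨U, hU⟩ : ∃ U : Matrix (Fin 3) (Fin 3) F, U = Matrix.of ![u, Matrix.vecMul u M,
    Matrix.vecMul (Matrix.vecMul u M) M] := ⟨_, rfl⟩
  have hUb : chb U b = fun i => κ * std A B i := by
    have hs1 : std A B 1 = Cu.th A B := rfl
    have hs0 : std A B 0 = 1 := rfl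
    have hs2 : std A B 2 = Cu.th A B * Cu.th A B := by
      ext <;> simp [std, Cu.th, Cu.mul_x, Cu.mul_y, Cu.mul_z]
    have hk1 : Cu.th A B * κ = Matrix.vecMul u M 0 • b 0 + Matrix.vecMul u M 1 • b 1 +
        Matrix.vecMul u M 2 • b 2 := by rw [hκ]; exact hcomb u
    have hk2 : Cu.th A B * (Cu.th A B * κ) = Matrix.vecMul (Matrix.vecMul u M) M 0 • b 0 +
        Matrix.vecMul (Matrix.vecMul u M) M 1 • b 1 +
        Matrix.vecMul (Matrix.vecMul u M) M 2 • b 2 := by rw [hk1]; exact hcomb _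
    funext i
    fin_cases i
    · change U 0 0 • b 0 + U 0 1 • b 1 + U 0 2 • b 2 = κ * std A B 0
      rw [hs0, mul_one, hU, hκ]
      rfl
    · change U 1 0 • b 0 + U 1 1 • b 1 + U 1 2 • b 2 = κ * std A B 1
      rw [hs1, mul_comm, hk1, hU]
      rfl
    · change U 2 0 • b 0 + U 2 1 • b 1 + U 2 2 • b 2 = κ * std A B 2
      rw [hs2, mul_comm, mul_assoc, hk2, hU]
      rfl
  have hUO : ∀ i j, U i j ∈ L.O.toSubring := by
    have hv : ∀ w : Fin 3 → F, (∀ i, w i ∈ L.O.toSubring) →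
        ∀ i, Matrix.vecMul w M i ∈ L.O.toSubring := by
      intro w hw i
      simp only [Matrix.vecMul, dotProduct]
      exact sum_mem fun k _ => mul_mem (hw k) (hMO k i)
    intro i j
    rw [hU]
    fin_cases i
    · exact hu j
    · exact hv u hu j
    · exact hv _ (hv u hu) j
  have hUdet : L.O.valuation U.det = 1 := by rw [hU]; exact huc
  obtain ⟨ε, hε⟩ : ∃ ε, ε = γ * κ * κ := ⟨_, rfl⟩
  have hgram : gram1 ε (std A B) = U * gram1 γ b * U.transpose := by
    rw [hε, gram_scale1, ← hUb, gram1_chb]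
  have hgO : ∀ i j, gram1 ε (std A B) i j ∈ L.O.toSubring := by
    rw [hgram]
    exact mul_mem' _ (mul_mem' _ hUO h.g1) fun i j => hUO j i
  have hnε : L.O.valuation ε.norm = 1 := by
    have h1 : (gram1 ε (std A B)).det = -ε.norm := det_gram1_std ε
    rw [hgram, Matrix.det_mul, Matrix.det_mul, Matrix.det_transpose] at h1
    have h2 := congrArg L.O.valuation h1
    rw [map_mul, map_mul, hUdet, hvdet, Valuation.map_neg, one_mul, one_mul] at h2
    exact h2.symm
  have hz : ε.z ∈ L.O := by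
    have := hgO 0 0
    simp only [gram1, Matrix.of_apply, std, Matrix.cons_val_zero, Cu.mul_z, Cu.mul_x, Cu.mul_y]
      at this
    simpa using this
  have hy : ε.y ∈ L.O := by
    have := hgO 0 1
    simp only [gram1, Matrix.of_apply, std, Matrix.cons_val_zero, Matrix.cons_val_one, Cu.mul_z,
      Cu.mul_x, Cu.mul_y] at this
    simpa using this
  have hx : ε.x ∈ L.O := by
    have := hgO 1 1
    simp only [gram1, Matrix.of_apply, std, Matrix.cons_val_one, Matrix.cons_val_zero, Cu.mul_z,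
      Cu.mul_x, Cu.mul_y] at this
    have h' : ε.x - A * ε.z ∈ L.O.toSubring := by
      convert this using 1
      ring
    have h'' := add_mem h' (mul_mem (s := L.O.toSubring) hA hz)
    rw [sub_add_cancel] at h''
    exact h''
  have hκn : κ.norm ≠ 0 := by
    intro h0
    have : ε.norm = 0 := by rw [hε, Cu.norm_mul, h0, mul_zero]
    rw [this, map_zero] at hnε
    exact zero_ne_one hnε
  obtain ⟨ρ, hρ⟩ : ∃ ρ, κ * ρ = 1 := by
    refine ⟨(κ.norm)⁻¹ • κ.adj, ?_⟩
    rw [mul_smul_comm, Cu.mul_adj, Algebra.smul_def, ← map_mul, inv_mul_cancel₀ hκn, map_one]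
  refine ⟨ε, ρ, ?_, ?_, hx, hy, hz, hnε⟩
  · rw [hε]
    calc γ = γ * (κ * ρ) * (κ * ρ) := by rw [hρ, mul_one, mul_one]
      _ = _ := by ring
  · intro h0
    have := congrArg Cu.norm hρ
    rw [Cu.norm_mul, h0, mul_zero, Cu.norm_one] at this
    exact zero_ne_one this

end Pool.Agent.BSDP
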