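import Pool.Agent.Lib.BSDP.D.Hens

/-!
Module D.Comp of MP_48b749_nt (positive proportion). The completions of `k(t)` are local fields.

PROOF. `O = (Valued.v).valuationSubring`. `O.valuation` is equivalent to `V = Valued.v`
(`Valuation.isEquiv_valuation_valuationSubring`), so `O.valuation x < O.valuation y ↔ V x < V y`,
`O.valuation x = 1 ↔ V x = 1`. `V (w.toCompletion a) = w.ring.valuation a`
(`Odd.valuation_toCompletion`): `mem_iff` (`ValuationSubring.valuation_le_one_iff`), `lt_iff`.
`pi = w.toCompletion ϖ`, `ϖ` a uniformizer of the discrete valuation ring `w.ring`.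
`exists_zpow`: by `Odd.exists_valuation_eq`, `V x = w.ring.valuation a` for some `a ≠ 0`;
`a = ϖ ^ n * u` with `u` a unit of `w.ring` (`w.dvr`: `IsDiscreteValuationRing` facts, `a = p / q`
with `p, q ∈ w.ring`); so `V (x / pi ^ n) = 1`. `pi_gen`: from `exists_zpow` (`V pi < 1`, `V x < 1`
forces `n ≥ 1`). `hens`: `hens_completion`. `two`: `2` is a nonzero constant, a unit of `w.ring`.
`fin`: the map `w.ring → O → residue field of O` is surjective: for `x ∈ O`, `x ≠ 0`, there is
`a ∈ k(t)` with `V (x - a) < V x ≤ 1` (`Odd.close_toCompletion`), `a ∈ w.ring`; it factors through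
the residue field of `w.ring`, which is finite: `BSDFF.residue_finite` for the places with
`X ∈ w.ring` (with `π` from `BSDFF.exists_irreducible_nonunit`) and
`BSDFF.constMap_infty_surjective` for `placeInfty` (`BSDFF.eq_placeInfty`). `dense`: choose `b` with
the value of `c` (`exists_valuation_eq`); the ball `{y | V (x - y) < V c}` is open and nonempty and
the image of `k(t)` is dense (see the proof of `Odd.close_toCompletion`).
-/

set_option autoImplicit false

open Polynomial

namespace Pool.Agent.BSDP

variable {k : Type} [Field k]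

open BSDFF in
private theorem comp_dense (w : Place k (RatFunc k)) (x c : w.ring.valuation.Completion)
    (hc : c ≠ 0) : ∃ a : RatFunc k,
      (Valued.v : Valuation w.ring.valuation.Completion _) (x - w.toCompletion a) <
      (Valued.v : Valuation w.ring.valuation.Completion _) c := by
  have hopen : IsOpen {y : w.ring.valuation.Completion |
      (Valued.v : Valuation w.ring.valuation.Completion _).restrict (x - y) <
      (Valued.v : Valuation w.ring.valuation.Completion _).restrict c} := by
    have h := Valued.isOpen_ball w.ring.valuation.Completion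
      ((Valued.v : Valuation w.ring.valuation.Completion _).restrict c)
    exact h.preimage (continuous_const.sub continuous_id)
  obtain ⟨y, hy1, a, ha⟩ := (UniformSpace.Completion.denseRange_coe
    (α := WithVal w.ring.valuation)).inter_open_nonempty _ hopen ⟨x, by
      simp only [Set.mem_ofPred_eq, sub_self, map_zero]
      rw [Valuation.pos_iff]
      exact hc⟩
  refine ⟨WithVal.equiv w.ring.valuation a, ?_⟩
  have h2 : w.toCompletion (WithVal.equiv w.ring.valuation a) = y := by
    rw [← ha]
    rfl
  rw [h2]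
  simpa using hy1

private theorem comp_residue_finite [Finite k] (w : BSDFF.Place k (RatFunc k)) :
    Finite (IsLocalRing.ResidueField w.ring) := by
  by_cases hX : RatFunc.X ∈ w.ring
  · obtain ⟨π, -, hπ, hn⟩ := BSDFF.exists_irreducible_nonunit w hX
    exact BSDFF.residue_finite w hX hπ hn
  · rw [BSDFF.eq_placeInfty w hX]
    exact Finite.of_surjective _ (BSDFF.constMap_infty_surjective (k := k))

private theorem comp_value (w : BSDFF.Place k (RatFunc k)) {ϖ : w.ring} (hϖ : Irreducible ϖ)
    (a : RatFunc k) (ha : a ≠ 0) : ∃ n : ℤ, w.ring.valuation a = w.ring.valuation (ϖ : RatFunc k) ^ n := by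
  have h1 : ∀ p : w.ring, p ≠ 0 → ∃ n : ℕ,
      w.ring.valuation (p : RatFunc k) = w.ring.valuation (ϖ : RatFunc k) ^ n := by
    intro p hp
    obtain ⟨n, u, hu⟩ := IsDiscreteValuationRing.eq_unit_mul_pow_irreducible hp hϖ
    refine ⟨n, ?_⟩
    have h2 : (p : RatFunc k) = ((u : w.ring) : RatFunc k) * (ϖ : RatFunc k) ^ n := by
      rw [hu]
      rfl
    rw [h2, map_mul, map_pow, (w.ring.valuation_eq_one_iff _).mp u.isUnit, one_mul]
  obtain ⟨p, q, hq, hpq⟩ := IsFractionRing.div_surjective (A := w.ring) a
  have hq0 : q ≠ 0 := nonZeroDivisors.ne_zero hq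
  have hp0 : p ≠ 0 := by
    rintro rfl
    rw [map_zero, zero_div] at hpq
    exact ha hpq.symm
  obtain ⟨m, hm⟩ := h1 p hp0
  obtain ⟨n, hn⟩ := h1 q hq0
  refine ⟨(m : ℤ) - n, ?_⟩
  have hϖ0 : w.ring.valuation (ϖ : RatFunc k) ≠ 0 := by
    rw [Valuation.ne_zero_iff]
    intro h0
    exact hϖ.ne_zero (Subtype.ext h0)
  rw [← hpq, map_div₀, zpow_sub₀ hϖ0, zpow_natCast, zpow_natCast]
  exact congrArg₂ (· / ·) hm hn

open BSDFF BSDFF.Odd in
theorem exists_locAt [Finite k] (h2 : (2 : k) ≠ 0) (w : BSDFF.Place k (RatFunc k)) :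
    Nonempty (LocAt w) := by
  set V := (Valued.v : Valuation w.ring.valuation.Completion _) with hV
  have hE : V.IsEquiv V.valuationSubring.valuation := Valuation.isEquiv_valuation_valuationSubring V
  have hle : ∀ x y, V.valuationSubring.valuation x ≤ V.valuationSubring.valuation y ↔ V x ≤ V y :=
    fun x y => (hE x y).symm
  have hlt : ∀ x y, V.valuationSubring.valuation x < V.valuationSubring.valuation y ↔ V x < V y := by
    intro x y
    rw [← not_le, ← not_le, hle]
  have hlt1 : ∀ x, V.valuationSubring.valuation x < 1 ↔ V x < 1 := by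
    intro x
    have := hlt x 1
    rwa [map_one, map_one] at this
  have hle1 : ∀ x, V.valuationSubring.valuation x ≤ 1 ↔ V x ≤ 1 := by
    intro x
    have := hle x 1
    rwa [map_one, map_one] at this
  have heq1 : ∀ x, V.valuationSubring.valuation x = 1 ↔ V x = 1 := by
    intro x
    have h3 := hle1 x
    have h4 := hlt1 x
    constructor
    · intro h
      exact le_antisymm (h3.1 h.le) (not_lt.1 fun h5 => absurd (h4.2 h5) (by rw [h]; exact lt_irrefl _))
    · intro h
      exact le_antisymm (h3.2 h.le) (not_lt.1 fun h5 => absurd (h4.1 h5) (by rw [h]; exact lt_irrefl _))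
  have hVt : ∀ a : RatFunc k, V (w.toCompletion a) = w.ring.valuation a := fun a => valuation_toCompletion w a
  obtain ⟨ϖ, hϖ⟩ := IsDiscreteValuationRing.exists_irreducible w.ring
  have hϖ1 : w.ring.valuation (ϖ : RatFunc k) < 1 :=
    (w.ring.valuation_lt_one_iff _).mp ((IsLocalRing.mem_maximalIdeal _).mpr hϖ.not_isUnit)
  have hϖ0 : w.ring.valuation (ϖ : RatFunc k) ≠ 0 := by
    rw [Valuation.ne_zero_iff]
    intro h0
    exact hϖ.ne_zero (Subtype.ext h0)
  set pi := w.toCompletion (ϖ : RatFunc k) with hpi
  have hVpi : V pi = w.ring.valuation (ϖ : RatFunc k) := hVt _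
  have hpi0 : pi ≠ 0 := by
    intro h0
    rw [h0, map_zero] at hVpi
    exact hϖ0 hVpi.symm
  have hzpow : ∀ x : w.ring.valuation.Completion, x ≠ 0 → ∃ (n : ℤ) (u : w.ring.valuation.Completion),
      V u = 1 ∧ x = pi ^ n * u := by
    intro x hx
    obtain ⟨a, ha⟩ := exists_valuation_eq w x
    have hx0 : V x ≠ 0 := (Valuation.ne_zero_iff V).mpr hx
    have ha0 : a ≠ 0 := by
      rintro rfl
      apply hx0
      exact ha.trans (map_zero _)
    obtain ⟨n, hn⟩ := comp_value w hϖ a ha0
    refine ⟨n, (pi ^ n)⁻¹ * x, ?_, ?_⟩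
    · rw [map_mul, map_inv₀, map_zpow₀, hVpi]
      have h3 : V x = w.ring.valuation (ϖ : RatFunc k) ^ n := ha.trans hn
      rw [h3]
      exact inv_mul_cancel₀ (zpow_ne_zero n hϖ0)
    · rw [mul_inv_cancel_left₀ (zpow_ne_zero n hpi0)]
  refine ⟨{
    O := V.valuationSubring
    pi := pi
    pi_ne := hpi0
    pi_gen := ?_
    exists_zpow := ?_
    hens := hens_completion w
    two := ?_
    fin := ?_
    mem_iff := ?_
    lt_iff := ?_
    dense := ?_ }⟩
  · intro x
    rw [hlt1]
    constructor
    · intro hx
      by_cases hx0 : x = 0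
      · exact ⟨0, zero_mem _, by rw [hx0, mul_zero]⟩
      · obtain ⟨n, u, hu, hxu⟩ := hzpow x hx0
        have hVx : V x = w.ring.valuation (ϖ : RatFunc k) ^ n := by
          rw [hxu, map_mul, map_zpow₀, hVpi, hu, mul_one]
        have hn : 1 ≤ n := by
          by_contra hcon
          have h3 : n ≤ 0 := by omega
          have h4 : 1 ≤ w.ring.valuation (ϖ : RatFunc k) ^ n := by
            obtain ⟨m, rfl⟩ : ∃ m : ℕ, n = -(m : ℤ) := ⟨n.natAbs, by omega⟩
            rw [zpow_neg, zpow_natCast]
            have h5 : w.ring.valuation (ϖ : RatFunc k) ^ m ≤ 1 := pow_le_one' hϖ1.le m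
            exact (one_le_inv₀ (zero_lt_iff.mpr (pow_ne_zero m hϖ0))).mpr h5
          rw [hVx] at hx
          exact absurd hx (not_lt.2 h4)
        refine ⟨pi ^ (n - 1) * u, ?_, ?_⟩
        · rw [Valuation.mem_valuationSubring_iff, map_mul, map_zpow₀, hVpi, hu, mul_one]
          obtain ⟨m, hm⟩ : ∃ m : ℕ, n - 1 = (m : ℤ) := ⟨(n - 1).natAbs, by omega⟩
          rw [hm, zpow_natCast]
          exact pow_le_one' hϖ1.le m
        · rw [← mul_assoc, ← zpow_one_add₀ hpi0, add_sub_cancel, hxu]
    · rintro ⟨y, hy, rfl⟩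
      rw [Valuation.mem_valuationSubring_iff] at hy
      rw [map_mul, hVpi]
      exact mul_lt_one_of_lt_of_le hϖ1 hy
  · intro x hx
    obtain ⟨n, u, hu, hxu⟩ := hzpow x hx
    exact ⟨n, u, (heq1 u).2 hu, hxu⟩
  · rw [heq1]
    have h3 : (2 : w.ring.valuation.Completion) = w.toCompletion (algebraMap k (RatFunc k) 2) := by
      rw [map_ofNat, map_ofNat]
    rw [h3, hVt]
    have h4 := (w.ring.valuation_le_one_iff _).mpr (w.const_mem 2)
    have h5 := (w.ring.valuation_le_one_iff _).mpr (w.const_mem (2⁻¹))
    have h6 : w.ring.valuation (algebraMap k (RatFunc k) 2) * w.ring.valuation (algebraMap k (RatFunc k) 2⁻¹) = 1 := by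
      rw [← map_mul, ← map_mul, mul_inv_cancel₀ h2, map_one, map_one]
    refine le_antisymm h4 (not_lt.1 fun h7 => ?_)
    exact absurd h6 (ne_of_lt (mul_lt_one_of_lt_of_le h7 h5))
  · have := comp_residue_finite w
    let φ : w.ring →+* V.valuationSubring :=
      (w.toCompletion.comp w.ring.subtype).codRestrict V.valuationSubring.toSubring (fun a => by
        change V (w.toCompletion (a : RatFunc k)) ≤ 1
        rw [hVt]
        exact (w.ring.valuation_le_one_iff _).mpr a.2)
    have hφ : ∀ a : w.ring, ((φ a : V.valuationSubring) : w.ring.valuation.Completion) =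
        w.toCompletion (a : RatFunc k) := fun a => rfl
    have hloc : IsLocalHom φ := by
      refine ⟨fun a ha => ?_⟩
      have h3 := (V.valuationSubring.valuation_eq_one_iff _).mp ha
      rw [hφ, heq1, hVt] at h3
      exact (w.ring.valuation_eq_one_iff _).mpr h3
    refine Finite.of_surjective (IsLocalRing.ResidueField.map φ) ?_
    intro y
    obtain ⟨x, rfl⟩ := IsLocalRing.residue_surjective y
    by_cases hx : (x : w.ring.valuation.Completion) = 0
    · refine ⟨0, ?_⟩
      have : x = 0 := Subtype.ext hx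
      rw [this, map_zero, map_zero]
    · obtain ⟨a, ha⟩ := close_toCompletion w _ hx
      have hx1 : V (x : w.ring.valuation.Completion) ≤ 1 := x.2
      have hVa : V (w.toCompletion a) = V (x : w.ring.valuation.Completion) := by
        have h1 := Valuation.map_sub_eq_of_lt_left _ ha
        rw [sub_sub_cancel] at h1
        exact h1
      have hamem : a ∈ w.ring := by
        rw [← w.ring.valuation_le_one_iff, ← hVt, hVa]
        exact hx1
      refine ⟨IsLocalRing.residue w.ring ⟨a, hamem⟩, ?_⟩
      rw [IsLocalRing.ResidueField.map_residue, eq_comm, ← sub_eq_zero, ← map_sub,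
        IsLocalRing.residue_eq_zero_iff, V.valuationSubring.valuation_lt_one_iff, hlt1]
      exact lt_of_lt_of_le ha hx1
  · intro a
    rw [Valuation.mem_valuationSubring_iff, hVt]
    exact w.ring.valuation_le_one_iff a
  · intro a
    rw [hlt1, hVt]
  · intro x c hc
    obtain ⟨a, ha⟩ := comp_dense w x c hc
    exact ⟨a, (hlt _ _).2 ha⟩

/-- a chosen structure of local field on the completion -/
noncomputable def locAt [Finite k] (h2 : (2 : k) ≠ 0) (w : BSDFF.Place k (RatFunc k)) : LocAt w :=
  (exists_locAt h2 w).some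

end Pool.Agent.BSDP
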