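import Pool.Agent.Lib.BSDP.D.Vi
import Pool.Agent.Lib.BSDP.A.Quin

/-!
Module D.Det of MP_48b749_nt (positive proportion). Local consequence of detection: `X ^ 3 + A X + B`
has exactly one root `ξ` modulo the maximal ideal and the component `γ (ξ)` is not a square.

SETTING. `φ : R → F` with values in `O`, `mk : R → κ` surjective onto a field, with the same kernel
as `R → O / m`, and `φ (R)` surjects onto `O / m` (`h3`). Dictionary: for `p, q : R`,
`mk p = mk q ↔ v (φ p - φ q) < 1`; if `mk p ≠ 0` then `v (φ p) = 1`; (★) if `mk p` is not a square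
in `κ` and `v (u - φ p) < 1` then `u` is a unit of `O` and not a square in `F` (if `u = d ^ 2` then
`d ∈ O`, `v (d - φ p') < 1` for some `p'` by `h3`, and `mk p = (mk p') ^ 2`).
PROOF. Write `t̄ = t.map mk`, `s̄, n̄₁, n̄₂, n̄₃` from `Det`, lifted to `s, n₁, n₂, n₃ : R`. `φ A`, `φ B`
are the invariants of `t.map φ` (`Normal.invA`, `Normal.invB`), so `mk A = t̄.invA`,
`mk B = t̄.invB` (difference in the kernel: `φ (t.invA) = φ A`). `n̄ ≠ 0` since the second nonsquare is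
not `0`. Let `G2 = t̄.mat`. `(G2 - s̄ G0) n̄ = 0` implies `det (G2 - s̄ G0) = 0`, and
`det (t̄.mat - s̄ • G0) = s̄ ^ 3 + t̄.invA s̄ + t̄.invB` (ring). So `f̄ (s̄) = 0`,
`f̄' (s̄) = 3 s̄ ^ 2 + Ā ≠ 0` (the second nonsquare is not `0`). `HenselianLocalRing O` (the monic
polynomial `X ^ 3 + A X + B` over `O`, approximate root `φ s`) gives `ξ ∈ O`, `f (ξ) = 0`,
`v (ξ - φ s) < 1`. `u1` from `f̄' (s̄) ≠ 0`; `u2`, `ns` from (★) with `- (3 ξ ^ 2 + 4 A)`.
Eigenvector: let `ν₀ = φ n₁ • b 0 + φ n₂ • b 1 + φ n₃ • b 2`, `hh = ⟨ξ ^ 2 + A, ξ, 1⟩` (as an element of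
`Cu`, `hh = θ ^ 2 + ξ θ + ξ ^ 2 + A`), `H = 3 ξ ^ 2 + A` (a unit), `λ = H⁻¹ • (hh * ν₀)`.
By `mul_hh`, `hh * ν₀ = ν₀.ev ξ • hh`, so `λ = σ • hh`, `σ = H⁻¹ ν₀.ev ξ`, and
`(γ * λ * λ).z = σ ^ 2 * γ.ev ξ * H` (`mul_hh` twice: `γ * hh * hh = γ.ev ξ • H • hh`, `hh.z = 1`;
`hh.ev ξ = 3 ξ ^ 2 + A`). On the other hand, in the basis `b`, multiplication by `θ` is
`M = gram2 * (gram1)⁻¹ = t.mat G0` (`gram2_eq`), with entries in `O`, and modulo the maximal ideal
`n̄ M̄ = s̄ n̄` as row vectors (from `G2 n̄ = s̄ G0 n̄`, transpose, `G0 G0 = 1`); so the coordinate row of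
`hh * ν₀` in `b` is `n (M ^ 2 + ξ M + ξ ^ 2 + A)`, congruent to `(3 s̄ ^ 2 + Ā) n̄`, and the coordinates
`ν` of `λ` are congruent to `n̄`. Hence `(γ * λ * λ).z = ν G0 νᵀ = 2 ν₁ ν₃ + ν₂ ^ 2` is congruent to
`2 n₁ n₃ + n₂ ^ 2`. By (★) the element `(γ * λ * λ).z * H` is not a square in `F`; it is
`γ.ev ξ * (σ H) ^ 2`. So `γ.ev ξ` is not a square.
(The eigenvector relation is `t.a n₁ + t.b n₂ + t.c n₃ = s n₃`, etc.: `t.mat n = s G0 n`.)
-/

set_option autoImplicit false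

open Polynomial

namespace Pool.Agent.BSDP

private theorem det_red {F : Type} [Field F] (L : Loc F) {R κ : Type} [CommRing R] [Field κ]
    (φ : R →+* F) (mk : R →+* κ)
    (h1 : ∀ p, φ p ∈ L.O)
    (h2 : ∀ p, mk p = 0 ↔ L.O.valuation (φ p) < 1)
    (h3 : ∀ u ∈ L.O, ∃ p, L.O.valuation (u - φ p) < 1) :
    ∃ red : L.O →+* κ, (∀ p, red ⟨φ p, h1 p⟩ = mk p) ∧
      ∀ x : L.O, red x = 0 ↔ L.O.valuation (x : F) < 1 := by
  have key : ∀ x y : L.O, IsLocalRing.residue L.O x = IsLocalRing.residue L.O y ↔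
      L.O.valuation ((x : F) - y) < 1 := by
    intro x y
    rw [← sub_eq_zero, ← map_sub, IsLocalRing.residue_eq_zero_iff, ValuationSubring.valuation_lt_one_iff]
    rfl
  obtain ⟨ψ, hψ⟩ : ∃ ψ : R →+* IsLocalRing.ResidueField L.O,
      ∀ p, ψ p = IsLocalRing.residue L.O ⟨φ p, h1 p⟩ :=
    ⟨(IsLocalRing.residue L.O).comp (φ.codRestrict L.O.toSubring h1), fun p => rfl⟩
  have hs : Function.Surjective ψ := by
    intro y
    obtain ⟨u, rfl⟩ := IsLocalRing.residue_surjective y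
    obtain ⟨p, hp⟩ := h3 u u.2
    exact ⟨p, by rw [hψ, eq_comm, key]; exact hp⟩
  have hk : RingHom.ker ψ ≤ RingHom.ker mk := by
    intro p hp
    rw [RingHom.mem_ker] at hp ⊢
    rw [h2]
    rw [hψ, ← map_zero (IsLocalRing.residue L.O), key] at hp
    simpa using hp
  have hlift : ∀ p, ψ.liftOfSurjective hs ⟨mk, hk⟩ (ψ p) = mk p := fun p =>
    RingHom.liftOfSurjective_comp_apply ψ hs ⟨mk, hk⟩ p
  refine ⟨(ψ.liftOfSurjective hs ⟨mk, hk⟩).comp (IsLocalRing.residue L.O), fun p => ?_, fun x => ?_⟩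
  · rw [RingHom.comp_apply, ← hψ]
    exact hlift p
  · rw [RingHom.comp_apply]
    have hz := key x 0
    rw [map_zero, ZeroMemClass.coe_zero, sub_zero] at hz
    rw [← hz, map_eq_zero]

private theorem det_thmul {F : Type} [Field F] {A B : F} {γ : Cu A B} {b : Fin 3 → Cu A B}
    {t : Quin F} (hn : Normal γ b t) (x y z : F) :
    Cu.th A B * (x • b 0 + y • b 1 + z • b 2) =
      (t.c * x + t.d * y + t.e * z) • b 0 + (t.b * x - 2 * t.c * y + t.d * z) • b 1 +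
        (t.a * x + t.b * y + t.c * z) • b 2 := by
  have hb := (normal_ne hn.g1).2
  have hM : coord b * thMat A B * (coord b)⁻¹ = t.mat * G0 F := by
    have h := gram2_eq γ b hb
    rw [hn.g1, hn.g2] at h
    rw [h, Matrix.mul_assoc _ (G0 F), G0_mul_G0, Matrix.mul_one]
  have hth := exists_th b hb
  rw [hM] at hth
  have h0 : Cu.th A B * b 0 = t.c • b 0 + t.b • b 1 + t.a • b 2 := by
    rw [hth 0]
    simp [chb, Quin.mat, G0, Matrix.mul_apply, Fin.sum_univ_three]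
  have h1 : Cu.th A B * b 1 = t.d • b 0 + (-2 * t.c) • b 1 + t.b • b 2 := by
    rw [hth 1]
    simp [chb, Quin.mat, G0, Matrix.mul_apply, Fin.sum_univ_three]
  have h2 : Cu.th A B * b 2 = t.e • b 0 + t.d • b 1 + t.c • b 2 := by
    rw [hth 2]
    simp [chb, Quin.mat, G0, Matrix.mul_apply, Fin.sum_univ_three]
  simp only [Algebra.smul_def, map_add, map_mul, map_neg, map_sub, map_ofNat] at h0 h1 h2 ⊢
  linear_combination (algebraMap F (Cu A B) x) * h0 + (algebraMap F (Cu A B) y) * h1 +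
    (algebraMap F (Cu A B) z) * h2

private theorem det_val {F : Type} [Field F] {A B : F} {γ : Cu A B} {b : Fin 3 → Cu A B}
    (hn : gram1 γ b = G0 F) (x y z : F) :
    (γ * (x • b 0 + y • b 1 + z • b 2) * (x • b 0 + y • b 1 + z • b 2)).z =
      2 * x * z + y ^ 2 := by
  have e : ∀ i j, (γ * b i * b j).z = G0 F i j := fun i j => congrFun (congrFun hn i) j
  have h00 := e 0 0
  have h01 := e 0 1
  have h02 := e 0 2
  have h11 := e 1 1
  have h12 := e 1 2
  have h22 := e 2 2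
  simp only [G0, Matrix.of_apply, Matrix.cons_val', Matrix.cons_val_zero, Matrix.cons_val_one, Matrix.cons_val,
    Cu.mul_x, Cu.mul_y, Cu.mul_z] at h00 h01 h02 h11 h12 h22
  simp only [Cu.mul_x, Cu.mul_y, Cu.mul_z, Cu.add_x, Cu.add_y, Cu.add_z, Cu.smul_x, Cu.smul_y, Cu.smul_z]
  linear_combination x ^ 2 * h00 + 2 * x * y * h01 + 2 * x * z * h02 + y ^ 2 * h11 +
    2 * y * z * h12 + z ^ 2 * h22

variable {F : Type} [Field F] (L : Loc F)

theorem Loc.det_root {R κ : Type} [CommRing R] [Field κ] (φ : R →+* F) (mk : R →+* κ)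
    (hmk : Function.Surjective mk) (h1 : ∀ p, φ p ∈ L.O)
    (h2 : ∀ p, mk p = 0 ↔ L.O.valuation (φ p) < 1)
    (h3 : ∀ u ∈ L.O, ∃ p, L.O.valuation (u - φ p) < 1) {A B : R} {γ : Cu (φ A) (φ B)}
    {b : Fin 3 → Cu (φ A) (φ B)} {t : Quin R} (hn : Normal γ b (t.map φ))
    (hd : (t.map mk).Det) :
    ∃ ξ, RootAt L (φ A) (φ B) ξ ∧ ¬ IsSquare (γ.ev ξ) := by
  obtain ⟨red, hr1, hr0⟩ := det_red L φ mk h1 h2 h3
  obtain ⟨s', n1', n2', n3', e1, e2, e3, hq1, hq2⟩ := hd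
  obtain ⟨s, rfl⟩ := hmk s'
  obtain ⟨n1, rfl⟩ := hmk n1'
  obtain ⟨n2, rfl⟩ := hmk n2'
  obtain ⟨n3, rfl⟩ := hmk n3'
  obtain ⟨o, ho⟩ : ∃ o : R →+* L.O, ∀ p, o p = ⟨φ p, h1 p⟩ :=
    ⟨φ.codRestrict L.O.toSubring h1, fun p => rfl⟩
  have hoc : ∀ p, (o p : F) = φ p := fun p => by rw [ho]
  have hro : ∀ p, red (o p) = mk p := fun p => by rw [ho, hr1]
  -- units and squares
  have hu : ∀ x : L.O, red x ≠ 0 → L.O.valuation (x : F) = 1 := by
    intro x hx
    rw [Ne, hr0] at hx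
    exact le_antisymm (L.O.valuation_le_one x) (not_lt.1 hx)
  have hsq : ∀ x : L.O, ¬ IsSquare (red x) → ¬ IsSquare (x : F) := by
    rintro x hx ⟨d, hd⟩
    have hdO : d ∈ L.O := by
      rw [← L.O.valuation_le_one_iff]
      by_contra hc
      rw [not_le] at hc
      have h := L.O.valuation_le_one x
      rw [hd, map_mul] at h
      exact absurd h (not_le.2 (one_lt_mul'' hc hc))
    apply hx
    refine ⟨red ⟨d, hdO⟩, ?_⟩
    rw [← map_mul]
    congr 1
    exact Subtype.ext hd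
  have htwo : (2 : F) ≠ 0 := by
    intro h
    have h' := L.two
    rw [h, map_zero] at h'
    exact zero_ne_one h'
  -- the invariants
  have hφA : φ t.invA = φ A := by
    have h := hn.invA htwo
    rw [← h]
    simp [Quin.invA, Quin.map, map_ofNat]
  have hφB : φ t.invB = φ B := by
    have h := hn.invB
    rw [← h]
    simp [Quin.invB, Quin.map, map_ofNat]
  have hmA : mk A = mk t.invA := by
    rw [← hr1, ← hr1]
    congr 1
    exact Subtype.ext hφA.symm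
  have hmB : mk B = mk t.invB := by
    rw [← hr1, ← hr1]
    congr 1
    exact Subtype.ext hφB.symm
  have hiA : (t.map mk).invA = mk A := by
    rw [hmA]
    simp [Quin.invA, Quin.map, map_ofNat]
  have hiB : (t.map mk).invB = mk B := by
    rw [hmB]
    simp [Quin.invB, Quin.map, map_ofNat]
  rw [hiA] at hq1 hq2
  have hmA' : mk A = -(3 * mk t.c ^ 2 + 2 * mk t.b * mk t.d + mk t.a * mk t.e) := by
    rw [← hiA]
    rfl
  have hmB' : mk B = 2 * mk t.c ^ 3 + 2 * mk t.b * mk t.c * mk t.d - 2 * mk t.a * mk t.c * mk t.e -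
      mk t.a * mk t.d ^ 2 - mk t.b ^ 2 * mk t.e := by
    rw [← hiB]
    rfl
  simp only [Quin.map] at e1 e2 e3
  have hN : (2 * mk n1 * mk n3 + mk n2 ^ 2) ≠ 0 := by
    intro h
    apply hq2
    rw [h, zero_mul]
    exact ⟨0, by simp⟩
  have hH : (3 * mk s ^ 2 + mk A) ≠ 0 := by
    intro h
    apply hq2
    rw [h, mul_zero]
    exact ⟨0, by simp⟩
  have hf : mk s ^ 3 + mk A * mk s + mk B = 0 := by
    have f1 : (mk s ^ 3 + mk A * mk s + mk B) * mk n1 = 0 := by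
      rw [hmA', hmB']
      linear_combination ((-2 * mk t.c - mk s) * mk t.e - mk t.d ^ 2) * e1 +
        (-(mk t.b * mk t.e - mk t.d * (mk t.c - mk s))) * e2 +
        (mk t.b * mk t.d - (-2 * mk t.c - mk s) * (mk t.c - mk s)) * e3
    have f2 : (mk s ^ 3 + mk A * mk s + mk B) * mk n2 = 0 := by
      rw [hmA', hmB']
      linear_combination (-(mk t.b * mk t.e - mk t.d * (mk t.c - mk s))) * e1 +
        (mk t.a * mk t.e - (mk t.c - mk s) ^ 2) * e2 +
        (-(mk t.a * mk t.d - mk t.b * (mk t.c - mk s))) * e3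
    have f3 : (mk s ^ 3 + mk A * mk s + mk B) * (2 * mk n1 * mk n3 + mk n2 ^ 2) = 0 := by
      linear_combination (2 * mk n3) * f1 + mk n2 * f2
    exact (mul_eq_zero.1 f3).resolve_right hN
  -- Hensel
  obtain ⟨ξ, hξ0, hξs⟩ : ∃ ξ : L.O, ξ ^ 3 + o A * ξ + o B = 0 ∧ red ξ = mk s := by
    have hens := L.hens
    have hmon : (X ^ 3 + C (o A) * X + C (o B) : (L.O)[X]).Monic := by
      monicity!
    obtain ⟨ξ, hx, hx2⟩ := hens.is_henselian (X ^ 3 + C (o A) * X + C (o B)) hmon (o s) (by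
      rw [ValuationSubring.valuation_lt_one_iff, ← hr0]
      simp only [eval_add, eval_mul, eval_pow, eval_X, eval_C, map_add, map_mul, map_pow, hro]
      exact hf) (by
      rw [ValuationSubring.valuation_eq_one_iff]
      apply hu
      have hder : (derivative (X ^ 3 + C (o A) * X + C (o B) : (L.O)[X])).eval (o s) =
          3 * o s ^ 2 + o A := by
        simp
        left
        norm_num
      rw [hder]
      simp only [map_add, map_mul, map_pow, hro, map_ofNat]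
      exact hH)
    refine ⟨ξ, ?_, ?_⟩
    · simpa [IsRoot] using hx
    · rw [ValuationSubring.valuation_lt_one_iff, ← hr0, map_sub, hro, sub_eq_zero] at hx2
      exact hx2
  have hroot : (ξ : F) ^ 3 + φ A * ξ + φ B = 0 := by
    rw [← hoc, ← hoc]
    exact_mod_cast congrArg (Subtype.val) hξ0
  refine ⟨ξ, ⟨ξ.2, hroot, ?_, ?_, ?_⟩, ?_⟩
  · have h := hu (3 * ξ ^ 2 + o A) (by
      simp only [map_add, map_mul, map_pow, hro, map_ofNat, hξs]
      exact hH)
    rw [← hoc]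
    exact_mod_cast h
  · have h := hu (3 * ξ ^ 2 + 4 * o A) (by
      simp only [map_add, map_mul, map_pow, hro, map_ofNat, hξs]
      intro h
      apply hq1
      rw [h]
      exact ⟨0, by simp⟩)
    rw [← hoc]
    exact_mod_cast h
  · have h := hsq (-(3 * ξ ^ 2 + 4 * o A)) (by
      simp only [map_add, map_mul, map_pow, map_neg, hro, map_ofNat, hξs]
      exact hq1)
    rw [← hoc]
    exact_mod_cast h
  · rintro ⟨g, hg⟩
    have c2 : ((2 : L.O) : F) = 2 := rfl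
    have c3 : ((3 : L.O) : F) = 3 := rfl
    obtain ⟨u1, hu1⟩ : ∃ u : L.O, u = o t.c * o n1 + o t.d * o n2 + o t.e * o n3 := ⟨_, rfl⟩
    obtain ⟨u2, hu2⟩ : ∃ u : L.O, u = o t.b * o n1 - 2 * o t.c * o n2 + o t.d * o n3 := ⟨_, rfl⟩
    obtain ⟨u3, hu3⟩ : ∃ u : L.O, u = o t.a * o n1 + o t.b * o n2 + o t.c * o n3 := ⟨_, rfl⟩
    have ru1 : red u1 = mk s * mk n1 := by
      rw [hu1]
      simp only [map_add, map_mul, hro]
      exact e3
    have ru2 : red u2 = mk s * mk n2 := by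
      rw [hu2]
      simp only [map_add, map_mul, map_sub, hro, map_ofNat]
      linear_combination e2
    have ru3 : red u3 = mk s * mk n3 := by
      rw [hu3]
      simp only [map_add, map_mul, hro]
      exact e1
    obtain ⟨w1, hw1⟩ : ∃ u : L.O, u = o t.c * u1 + o t.d * u2 + o t.e * u3 := ⟨_, rfl⟩
    obtain ⟨w2, hw2⟩ : ∃ u : L.O, u = o t.b * u1 - 2 * o t.c * u2 + o t.d * u3 := ⟨_, rfl⟩
    obtain ⟨w3, hw3⟩ : ∃ u : L.O, u = o t.a * u1 + o t.b * u2 + o t.c * u3 := ⟨_, rfl⟩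
    have rw1 : red w1 = mk s ^ 2 * mk n1 := by
      rw [hw1]
      simp only [map_add, map_mul, hro, ru1, ru2, ru3]
      linear_combination mk s * e3
    have rw2 : red w2 = mk s ^ 2 * mk n2 := by
      rw [hw2]
      simp only [map_add, map_mul, map_sub, hro, map_ofNat, ru1, ru2, ru3]
      linear_combination mk s * e2
    have rw3 : red w3 = mk s ^ 2 * mk n3 := by
      rw [hw3]
      simp only [map_add, map_mul, hro, ru1, ru2, ru3]
      linear_combination mk s * e1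
    obtain ⟨y1, hy1⟩ : ∃ u : L.O, u = w1 + ξ * u1 + (ξ ^ 2 + o A) * o n1 := ⟨_, rfl⟩
    obtain ⟨y2, hy2⟩ : ∃ u : L.O, u = w2 + ξ * u2 + (ξ ^ 2 + o A) * o n2 := ⟨_, rfl⟩
    obtain ⟨y3, hy3⟩ : ∃ u : L.O, u = w3 + ξ * u3 + (ξ ^ 2 + o A) * o n3 := ⟨_, rfl⟩
    have ry1 : red y1 = (3 * mk s ^ 2 + mk A) * mk n1 := by
      rw [hy1]
      simp only [map_add, map_mul, map_pow, hro, hξs, ru1, rw1]
      ring
    have ry2 : red y2 = (3 * mk s ^ 2 + mk A) * mk n2 := by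
      rw [hy2]
      simp only [map_add, map_mul, map_pow, hro, hξs, ru2, rw2]
      ring
    have ry3 : red y3 = (3 * mk s ^ 2 + mk A) * mk n3 := by
      rw [hy3]
      simp only [map_add, map_mul, map_pow, hro, hξs, ru3, rw3]
      ring
    -- the element of the algebra
    obtain ⟨ν, hν⟩ : ∃ ν : Cu (φ A) (φ B), ν = φ n1 • b 0 + φ n2 • b 1 + φ n3 • b 2 := ⟨_, rfl⟩
    obtain ⟨hh, hhh⟩ : ∃ hh : Cu (φ A) (φ B), hh = ⟨(ξ : F) ^ 2 + φ A, ξ, 1⟩ := ⟨_, rfl⟩
    have t1 : Cu.th (φ A) (φ B) * ν = (u1 : F) • b 0 + (u2 : F) • b 1 + (u3 : F) • b 2 := by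
      rw [hν, det_thmul hn, hu1, hu2, hu3]
      push_cast
      simp only [hoc, Quin.map, c2]
    have t2 : Cu.th (φ A) (φ B) * (Cu.th (φ A) (φ B) * ν) =
        (w1 : F) • b 0 + (w2 : F) • b 1 + (w3 : F) • b 2 := by
      rw [t1, det_thmul hn, hw1, hw2, hw3]
      push_cast
      simp only [hoc, Quin.map, c2]
    have hhe : hh = Cu.th (φ A) (φ B) * Cu.th (φ A) (φ B) + (ξ : F) • Cu.th (φ A) (φ B) +
        ((ξ : F) ^ 2 + φ A) • 1 := by
      rw [hhh]
      ext <;> simp [Cu.mul_x, Cu.mul_y, Cu.mul_z]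
    have t3 : hh * ν = (y1 : F) • b 0 + (y2 : F) • b 1 + (y3 : F) • b 2 := by
      have z1 : hh * ν = Cu.th (φ A) (φ B) * (Cu.th (φ A) (φ B) * ν) +
          (ξ : F) • (Cu.th (φ A) (φ B) * ν) + ((ξ : F) ^ 2 + φ A) • ν := by
        rw [hhe]
        simp only [Algebra.smul_def]
        ring
      rw [z1, t2, t1, hν, hy1, hy2, hy3]
      push_cast
      simp only [hoc, Algebra.smul_def, map_add, map_mul, map_pow]
      ring
    have t4 : hh * ν = ν.ev (ξ : F) • hh := by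
      rw [mul_comm, hhh]
      exact mul_hh hroot ν
    have t5 : (γ * (hh * ν) * (hh * ν)).z = 2 * (y1 : F) * y3 + (y2 : F) ^ 2 := by
      rw [t3]
      exact det_val hn.g1 _ _ _
    have t6 : (γ * (hh * ν) * (hh * ν)).z = γ.ev (ξ : F) * (ν.ev (ξ : F)) ^ 2 *
        (3 * (ξ : F) ^ 2 + φ A) := by
      rw [t4]
      have g1 : γ * hh = γ.ev (ξ : F) • hh := by
        rw [hhh]
        exact mul_hh hroot γ
      have g2 : hh * hh = (3 * (ξ : F) ^ 2 + φ A) • hh := by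
        have h := mul_hh hroot hh
        rw [← hhh] at h
        rw [h]
        congr 1
        rw [hhh, Cu.ev]
        ring
      have g3 : γ * (ν.ev (ξ : F) • hh) * (ν.ev (ξ : F) • hh) =
          (γ.ev (ξ : F) * (ν.ev (ξ : F)) ^ 2 * (3 * (ξ : F) ^ 2 + φ A)) • hh := by
        simp only [Algebra.smul_def, map_add, map_mul, map_pow] at g1 g2 ⊢
        linear_combination (algebraMap F (Cu (φ A) (φ B)) (ν.ev (ξ : F))) ^ 2 * hh * g1 +
          (algebraMap F (Cu (φ A) (φ B)) (ν.ev (ξ : F))) ^ 2 *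
            (algebraMap F (Cu (φ A) (φ B)) (γ.ev (ξ : F))) * g2
      rw [g3, Cu.smul_z, hhh, mul_one]
    have t7 : (((2 * y1 * y3 + y2 ^ 2) * (3 * ξ ^ 2 + o A) : L.O) : F) =
        (g * ν.ev (ξ : F) * (3 * (ξ : F) ^ 2 + φ A)) * (g * ν.ev (ξ : F) * (3 * (ξ : F) ^ 2 + φ A)) := by
      push_cast
      rw [hoc, c2, c3]
      rw [t5, hg] at t6
      linear_combination (3 * (ξ : F) ^ 2 + φ A) * t6
    refine hsq ((2 * y1 * y3 + y2 ^ 2) * (3 * ξ ^ 2 + o A)) ?_ ⟨_, t7⟩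
    rintro ⟨r, hr⟩
    simp only [map_add, map_mul, map_pow, map_ofNat, hro, hξs, ry1, ry2, ry3] at hr
    apply hq2
    refine ⟨r / (3 * mk s ^ 2 + mk A), ?_⟩
    rw [div_mul_div_comm, ← hr, eq_div_iff (mul_ne_zero hH hH)]
    ring

end Pool.Agent.BSDP
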