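import Pool.Agent.Lib.BSDP.Def
import Pool.Agent.Lib.MP_48b749_nt.Odd.LocComp

/-!
Module D.Hens of MP_48b749_nt (positive proportion). The valuation ring of the completion of `k(t)`
at a closed point is henselian.

PROOF. Let `C = w.ring.valuation.Completion`, `V = Valued.v` on `C`, `R = V.valuationSubring`. `C` is
complete (`CompleteSpace`, completion). Let `ϖ ∈ w.ring` be a uniformizer (`w.dvr`). The values of
`V` on `C` are the values of `w.ring.valuation` on `k(t)` (`Odd.exists_valuation_eq`), which are `0`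
and the powers `v(ϖ) ^ n`, `n : ℤ`. So the maximal ideal of `R` is generated by (the image of) `ϖ`
and its powers are the sets `{V x ≤ v(ϖ) ^ n}`. Way 1: show `IsAdicComplete (maximalIdeal R) R`
(Hausdorff: a nonzero element has a value `v(ϖ) ^ n`; precomplete: a sequence with
`f (n+1) ≡ f n mod m ^ n` is Cauchy in `C`, the limit lies in `R` because `R` is closed), then
`IsAdicComplete.henselianRing` and the definition of `HenselianLocalRing` (a monic polynomial with
an approximate simple root). Way 2: Newton iteration `a_{n+1} = a_n - f (a_n) / f' (a_n)`,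
`V (f (a_n)) ≤ v(ϖ) ^ (n+1)`.
(Mathlib has results on `Valued.integer` of complete rank one / discrete fields; use whatever helps.)
-/

set_option autoImplicit false

open Polynomial Filter Topology

namespace Pool.Agent.BSDP

private theorem hens_aux {C Γ : Type*} [Field C] [LinearOrderedCommGroupWithZero Γ]
    [hv : Valued C Γ] [CompleteSpace C] (p : C) (hp0 : p ≠ 0) (hp1 : hv.v p < 1)
    (hgen : ∀ x : C, hv.v x < 1 → hv.v x ≤ hv.v p)
    (harch : ∀ x : C, x ≠ 0 → ∃ n : ℕ, hv.v p ^ n ≤ hv.v x) :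
    HenselianLocalRing hv.v.valuationSubring := by
  set R := hv.v.valuationSubring with hR
  have hint : hv.v.Integers R := Valuation.valuationSubring.integers hv.v
  have hmax : ∀ x : R, x ∈ IsLocalRing.maximalIdeal R ↔ hv.v (x : C) < 1 := by
    intro x
    rw [IsLocalRing.mem_maximalIdeal, mem_nonunits_iff, hint.isUnit_iff_valuation_eq_one]
    change ¬ (hv.v (x : C) = 1) ↔ _
    have hx : hv.v (x : C) ≤ 1 := x.2
    exact ⟨fun h => lt_of_le_of_ne hx h, fun h => h.ne⟩
  have hpR : p ∈ R := hp1.le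
  set P : R := ⟨p, hpR⟩ with hP
  have hvp0 : hv.v p ≠ 0 := (Valuation.ne_zero_iff _).2 hp0
  have hspan : IsLocalRing.maximalIdeal R = Ideal.span {P} := by
    ext x
    rw [Ideal.mem_span_singleton, hmax, hint.dvd_iff_le]
    change _ ↔ hv.v (x : C) ≤ hv.v p
    exact ⟨fun h => hgen _ h, fun h => lt_of_le_of_lt h hp1⟩
  have hpow : ∀ (n : ℕ) (x : R), x ∈ (IsLocalRing.maximalIdeal R) ^ n ↔
      hv.v (x : C) ≤ hv.v p ^ n := by
    intro n x
    rw [hspan, Ideal.span_singleton_pow, Ideal.mem_span_singleton, hint.dvd_iff_le, map_pow]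
    change hv.v (x : C) ≤ hv.v (p ^ n) ↔ _
    rw [map_pow]
  have hsm : ∀ (n : ℕ) (x y : R),
      x ≡ y [SMOD ((IsLocalRing.maximalIdeal R) ^ n • ⊤ : Submodule R R)] ↔
      hv.v ((x : C) - y) ≤ hv.v p ^ n := by
    intro n x y
    rw [← Ideal.one_eq_top, Ideal.smul_eq_mul, mul_one, SModEq.sub_mem, hpow]
    rfl
  have hlt : ∀ n : ℕ, hv.v p ^ (n + 1) < hv.v p ^ n := by
    intro n
    rw [pow_succ]
    exact mul_lt_of_lt_one_right (zero_lt_iff.2 (pow_ne_zero _ hvp0)) hp1
  have hauss : IsHausdorff (IsLocalRing.maximalIdeal R) R := by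
    refine ⟨fun x hx => ?_⟩
    by_contra hx0
    have hxC : (x : C) ≠ 0 := fun h => hx0 (Subtype.ext h)
    obtain ⟨n, hn⟩ := harch x hxC
    have h1 := (hsm (n + 1) x 0).1 (hx (n + 1))
    rw [ZeroMemClass.coe_zero, sub_zero] at h1
    exact absurd (hn.trans h1) (not_le.2 (hlt n))
  have hprec : IsPrecomplete (IsLocalRing.maximalIdeal R) R := by
    refine ⟨fun f hf => ?_⟩
    have hf' : ∀ m n, m ≤ n → hv.v ((f m : C) - f n) ≤ hv.v p ^ m :=
      fun m n hmn => (hsm m _ _).1 (hf hmn)
    have hc : CauchySeq (fun n => (f n : C)) := by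
      unfold CauchySeq
      rw [Valued.cauchy_iff]
      refine ⟨inferInstance, fun γ => ?_⟩
      obtain ⟨x, hx0, hx⟩ : ∃ x : C, x ≠ 0 ∧ hv.v.restrict x ≤ γ.1 := by
        obtain ⟨x, hx⟩ := MonoidWithZeroHom.ValueGroup₀.restrict₀_surjective
          (f := MonoidWithZeroHom.ofClass hv.v) γ.1
        refine ⟨x, ?_, le_of_eq hx⟩
        rintro rfl
        exact γ.ne_zero (by rw [← hx, map_zero])
      obtain ⟨n, hn⟩ := harch x hx0
      refine ⟨(fun n => (f n : C)) '' Set.Ici (n + 1), ?_, ?_⟩
      · exact image_mem_map (Ici_mem_atTop _)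
      · rintro _ ⟨i, hi, rfl⟩ _ ⟨j, hj, rfl⟩
        refine lt_of_lt_of_le ?_ hx
        rw [Valuation.restrict_lt_iff]
        refine lt_of_le_of_lt ?_ (lt_of_lt_of_le (hlt n) hn)
        have h1 := hf' (n + 1) i hi
        have h2 := hf' (n + 1) j hj
        have h3 : (f j : C) - f i = ((f (n + 1) : C) - f i) - ((f (n + 1) : C) - f j) := by ring
        simp only [h3]
        exact (Valuation.map_sub _ _ _).trans (max_le h1 h2)
    obtain ⟨L, hL⟩ := cauchySeq_tendsto_of_complete hc
    have hLn : ∀ n, hv.v ((f n : C) - L) ≤ hv.v p ^ n := by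
      intro n
      have hcl : IsClosed {y : C | hv.v.restrict ((f n : C) - y) ≤ hv.v.restrict (p ^ n)} :=
        (Valued.isClosed_closedBall C (hv.v.restrict (p ^ n))).preimage
          (continuous_const.sub continuous_id)
      have hmem : L ∈ {y : C | hv.v.restrict ((f n : C) - y) ≤ hv.v.restrict (p ^ n)} := by
        refine hcl.mem_of_tendsto hL ?_
        filter_upwards [Ici_mem_atTop n] with m hm
        rw [Valuation.restrict_le_iff, map_pow]
        exact hf' n m hm
      change hv.v.restrict ((f n : C) - L) ≤ hv.v.restrict (p ^ n) at hmem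
      rwa [Valuation.restrict_le_iff, map_pow] at hmem
    have hLR : L ∈ R := by
      have h1 := hLn 0
      rw [pow_zero] at h1
      have h2 : hv.v (f 0 : C) ≤ 1 := (f 0).2
      have h3 : L = (f 0 : C) - ((f 0 : C) - L) := by ring
      change hv.v L ≤ 1
      rw [h3]
      exact (Valuation.map_sub _ _ _).trans (max_le h2 h1)
    exact ⟨⟨L, hLR⟩, fun n => (hsm n _ _).2 (hLn n)⟩
  have : IsAdicComplete (IsLocalRing.maximalIdeal R) R := {}
  refine { is_henselian := ?_ }
  intro f hf a₀ h1 h2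
  exact HenselianRing.is_henselian (I := IsLocalRing.maximalIdeal R) f hf a₀ h1
    (h2.map (Ideal.Quotient.mk _))

variable {k : Type} [Field k]

theorem hens_completion (w : BSDFF.Place k (RatFunc k)) :
    HenselianLocalRing
      (Valued.v : Valuation w.ring.valuation.Completion _).valuationSubring := by
  obtain ⟨ϖ, hϖ⟩ := IsDiscreteValuationRing.exists_irreducible w.ring
  have hϖ1 : w.ring.valuation (ϖ : RatFunc k) < 1 :=
    (w.ring.valuation_lt_one_iff ϖ).1 ((IsLocalRing.mem_maximalIdeal _).2 hϖ.not_isUnit)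
  have hϖ0 : (ϖ : RatFunc k) ≠ 0 := fun h => hϖ.ne_zero (Subtype.ext h)
  refine hens_aux (w.toCompletion (ϖ : RatFunc k)) ?_ ?_ ?_ ?_
  · exact (map_ne_zero w.toCompletion).2 hϖ0
  · rw [BSDFF.Odd.valuation_toCompletion]
    exact hϖ1
  · intro x hx
    rw [BSDFF.Odd.valuation_toCompletion]
    obtain ⟨a, ha⟩ := BSDFF.Odd.exists_valuation_eq w x
    rw [ha] at hx ⊢
    have hmem : a ∈ w.ring := (w.ring.valuation_le_one_iff a).1 hx.le
    have h1 : (⟨a, hmem⟩ : w.ring) ∈ IsLocalRing.maximalIdeal w.ring :=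
      (w.ring.valuation_lt_one_iff _).2 hx
    rw [hϖ.maximalIdeal_eq, Ideal.mem_span_singleton] at h1
    obtain ⟨b, hb⟩ := h1
    have h2 : a = (ϖ : RatFunc k) * (b : RatFunc k) := congrArg Subtype.val hb
    rw [h2, map_mul]
    exact mul_le_of_le_one_right' (w.ring.valuation_le_one b)
  · intro x hx
    rw [BSDFF.Odd.valuation_toCompletion]
    obtain ⟨a, ha⟩ := BSDFF.Odd.exists_valuation_eq w x
    rw [ha]
    have ha0 : a ≠ 0 := by
      rintro rfl
      rw [map_zero] at ha
      exact hx ((Valuation.zero_iff _).1 ha)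
    rcases le_total 1 (w.ring.valuation a) with h | h
    · exact ⟨0, by rw [pow_zero]; exact h⟩
    · have hmem : a ∈ w.ring := (w.ring.valuation_le_one_iff a).1 h
      obtain ⟨n, u, hu⟩ := IsDiscreteValuationRing.eq_unit_mul_pow_irreducible
        (x := (⟨a, hmem⟩ : w.ring)) (fun h0 => ha0 (congrArg Subtype.val h0)) hϖ
      refine ⟨n, ?_⟩
      have h2 : a = ((u : w.ring) : RatFunc k) * (ϖ : RatFunc k) ^ n := by
        have := congrArg Subtype.val hu
        simpa using this
      have h3 : w.ring.valuation ((u : w.ring) : RatFunc k) = 1 := w.ring.valuation_unit u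
      rw [h2, map_mul, h3, one_mul, map_pow]

end Pool.Agent.BSDP
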