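import Pool.Agent.Lib.BSDP.Def

/-!
Module D.Ord of MP_48b749_nt (positive proportion). The normalized valuation of a local field and
first consequences of Hensel's lemma.

PROOFS. `pi_lt`: `pi = pi * 1`, `pi_gen`. `ord x` is the `n` of `exists_zpow` (`0` for `x = 0`);
`val_eq : O.valuation x = O.valuation pi ^ ord x` for `x ≠ 0`, and `O.valuation pi < 1` gives strict
antitonicity of `n ↦ O.valuation pi ^ n` (`zpow_right_strictAnti₀`), hence all the comparison lemmas.
`ord_mul` etc. follow from uniqueness.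
`sq_of_near`: `v (u - c ^ 2) < v u`, `u ≠ 0`, then `v (c ^ 2) = v u`, `c ≠ 0`, `w = u / c ^ 2` has
`v (w - 1) < 1`; the monic polynomial `X ^ 2 - C w` over `O` has the approximate root `1`
(`f (1) = 1 - w ∈ m`, `f' (1) = 2` a unit), so `HenselianLocalRing.is_henselian` gives a root `a`,
`u = (a c) ^ 2`.
`isSquare_residue`: if `u ∈ O`, `v u = 1` and `v (u - c ^ 2) < 1` for some `c ∈ O` then `u` is a
square: `sq_of_near`. Conversely if `u = d * d` then `d ∈ O` (`v d = 1`).
`isSquare_congr`: if `v u = 1` (or any `u ≠ 0`) and `v (u - u') < v u` then `u` is a square iff `u'`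
is: `u' / u` is `1` modulo the maximal ideal, hence a square.
-/

set_option autoImplicit false

open Polynomial

namespace Pool.Agent.BSDP

namespace Loc

variable {F : Type} [Field F] (L : Loc F)

theorem pi_lt : L.O.valuation L.pi < 1 :=
  (L.pi_gen _).2 ⟨1, one_mem _, (mul_one _).symm⟩

/-- the normalized valuation (`0` at `0`) -/
noncomputable def ord (x : F) : ℤ :=
  open Classical in if h : x = 0 then 0 else (L.exists_zpow x h).choose

private theorem vpi_ne : L.O.valuation L.pi ≠ 0 := (Valuation.ne_zero_iff _).2 L.pi_ne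

private theorem vpi_pos : 0 < L.O.valuation L.pi := zero_lt_iff.2 L.vpi_ne

private theorem anti : StrictAnti (fun n : ℤ => L.O.valuation L.pi ^ n) :=
  zpow_right_strictAnti₀ L.vpi_pos L.pi_lt

theorem val_eq {x : F} (hx : x ≠ 0) : L.O.valuation x = L.O.valuation L.pi ^ L.ord x := by
  have h : L.ord x = (L.exists_zpow x hx).choose := by
    unfold ord
    rw [dif_neg hx]
  obtain ⟨u, hu, hxu⟩ := (L.exists_zpow x hx).choose_spec
  rw [h]
  conv_lhs => rw [hxu]
  rw [map_mul, hu, mul_one, map_zpow₀]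

theorem val_le_iff {x y : F} (hx : x ≠ 0) (hy : y ≠ 0) :
    L.O.valuation x ≤ L.O.valuation y ↔ L.ord y ≤ L.ord x := by
  rw [L.val_eq hx, L.val_eq hy]
  exact L.anti.le_iff_ge

theorem val_lt_iff {x y : F} (hx : x ≠ 0) (hy : y ≠ 0) :
    L.O.valuation x < L.O.valuation y ↔ L.ord y < L.ord x := by
  rw [L.val_eq hx, L.val_eq hy]
  exact L.anti.lt_iff_gt

private theorem ord_unique {x : F} (hx : x ≠ 0) {n : ℤ}
    (h : L.O.valuation x = L.O.valuation L.pi ^ n) : L.ord x = n := by
  rw [L.val_eq hx] at h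
  exact L.anti.injective h

theorem ord_mul {x y : F} (hx : x ≠ 0) (hy : y ≠ 0) : L.ord (x * y) = L.ord x + L.ord y := by
  apply L.ord_unique (mul_ne_zero hx hy)
  rw [map_mul, L.val_eq hx, L.val_eq hy, zpow_add₀ L.vpi_ne]

theorem ord_pow {x : F} (hx : x ≠ 0) (n : ℕ) : L.ord (x ^ n) = n * L.ord x := by
  apply L.ord_unique (pow_ne_zero _ hx)
  rw [map_pow, L.val_eq hx, mul_comm, zpow_mul, zpow_natCast]

theorem ord_inv {x : F} (hx : x ≠ 0) : L.ord x⁻¹ = -L.ord x := by
  apply L.ord_unique (inv_ne_zero hx)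
  rw [map_inv₀, L.val_eq hx, zpow_neg]

theorem ord_one : L.ord 1 = 0 := by
  apply L.ord_unique one_ne_zero
  rw [map_one, zpow_zero]

theorem ord_pi : L.ord L.pi = 1 := by
  apply L.ord_unique L.pi_ne
  rw [zpow_one]

theorem ord_eq_zero_iff {x : F} (hx : x ≠ 0) : L.ord x = 0 ↔ L.O.valuation x = 1 := by
  constructor
  · intro h
    rw [L.val_eq hx, h, zpow_zero]
  · intro h
    apply L.ord_unique hx
    rw [h, zpow_zero]

theorem mem_iff_ord {x : F} (hx : x ≠ 0) : x ∈ L.O ↔ 0 ≤ L.ord x := by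
  rw [← L.O.valuation_le_one_iff x, ← map_one L.O.valuation, L.val_le_iff hx one_ne_zero, L.ord_one]

theorem lt_one_iff_ord {x : F} (hx : x ≠ 0) : L.O.valuation x < 1 ↔ 1 ≤ L.ord x := by
  rw [← map_one L.O.valuation, L.val_lt_iff hx one_ne_zero, L.ord_one]
  exact Int.lt_iff_add_one_le

theorem isSquare_mul_sq {u c : F} (hc : c ≠ 0) : IsSquare (u * c ^ 2) ↔ IsSquare u := by
  constructor
  · rintro ⟨r, hr⟩
    refine ⟨r / c, ?_⟩
    field_simp
    rw [hr]
    ring
  · rintro ⟨r, hr⟩
    exact ⟨r * c, by rw [hr]; ring⟩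

theorem sq_of_one {u : F} (h : L.O.valuation (u - 1) < 1) : IsSquare u := by
  have hu1 : L.O.valuation u = 1 := by
    have h1 := Valuation.map_add_eq_of_lt_right L.O.valuation
      (x := u - 1) (y := 1) (by rwa [map_one])
    rwa [sub_add_cancel, map_one] at h1
  have hu : u ∈ L.O := (L.O.valuation_le_one_iff u).1 hu1.le
  have := L.hens
  set w : L.O := ⟨u, hu⟩ with hw
  have h0 : (X ^ 2 - C w : L.O[X]).eval 1 ∈ IsLocalRing.maximalIdeal L.O := by
    rw [L.O.valuation_lt_one_iff]
    have : (((X ^ 2 - C w : L.O[X]).eval 1 : L.O) : F) = -(u - 1) := by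
      simp [hw]
    rw [this, Valuation.map_neg]
    exact h
  have h2 : IsUnit ((X ^ 2 - C w : L.O[X]).derivative.eval 1) := by
    rw [L.O.valuation_eq_one_iff]
    have : (((X ^ 2 - C w : L.O[X]).derivative.eval 1 : L.O) : F) = 2 := by
      simp
      norm_num
    rw [this]
    exact L.two
  obtain ⟨a, ha, -⟩ := HenselianLocalRing.is_henselian (X ^ 2 - C w : L.O[X])
    (monic_X_pow_sub_C w two_ne_zero) 1 h0 h2
  refine ⟨(a : F), ?_⟩
  have h3 : a ^ 2 - w = 0 := by
    have := ha
    rw [Polynomial.IsRoot.def] at this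
    simpa using this
  have h4 := congrArg (Subtype.val) (sub_eq_zero.1 h3)
  simp only [hw] at h4
  rw [← h4]
  push_cast
  ring

/-- Hensel's lemma for squares -/
theorem sq_of_near {u c : F} (h : L.O.valuation (u - c ^ 2) < L.O.valuation u) : IsSquare u := by
  have hu : L.O.valuation (c ^ 2) = L.O.valuation u := by
    have h1 := Valuation.map_sub_eq_of_lt_left L.O.valuation h
    rw [← h1]
    congr 1
    ring
  have hu0 : u ≠ 0 := by
    rintro rfl
    rw [map_zero] at h
    exact absurd h not_lt_zero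
  have hc : c ≠ 0 := by
    rintro rfl
    apply hu0
    rw [← Valuation.zero_iff L.O.valuation, ← hu]
    simp
  have hc2 : c ^ 2 ≠ 0 := pow_ne_zero 2 hc
  have h5 : IsSquare (u / c ^ 2) := by
    apply L.sq_of_one
    have h6 : u / c ^ 2 - 1 = (u - c ^ 2) / c ^ 2 := by
      field_simp
    rw [h6, map_div₀, hu]
    exact (div_lt_one₀ (zero_lt_iff.2 ((Valuation.ne_zero_iff _).2 hu0))).2 h
  have h7 : u = u / c ^ 2 * c ^ 2 := by
    field_simp
  rw [h7]
  exact (isSquare_mul_sq hc).2 h5

/-- squares modulo the maximal ideal are squares -/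
theorem sq_of_residue {u c : F} (hu : L.O.valuation u = 1) (h : L.O.valuation (u - c ^ 2) < 1) :
    IsSquare u :=
  L.sq_of_near (c := c) (by rwa [hu])

theorem isSquare_congr {u u' : F} (h : L.O.valuation (u - u') < L.O.valuation u) :
    IsSquare u ↔ IsSquare u' := by
  have hu : L.O.valuation u' = L.O.valuation u := by
    have h1 := Valuation.map_sub_eq_of_lt_left L.O.valuation h
    rw [← h1]
    congr 1
    ring
  constructor
  · rintro ⟨c, hc⟩
    apply L.sq_of_near (c := c)
    rw [← pow_two] at hc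
    rw [← hc, hu, Valuation.map_sub_swap]
    exact h
  · rintro ⟨c, hc⟩
    apply L.sq_of_near (c := c)
    rw [← pow_two] at hc
    rw [← hc]
    exact h

/-- an element of even order is a unit times a square -/
theorem exists_unit_mul_sq {x : F} (hx : x ≠ 0) (h : Even (L.ord x)) :
    ∃ u c : F, L.O.valuation u = 1 ∧ c ≠ 0 ∧ x = u * c ^ 2 := by
  obtain ⟨m, hm⟩ := h
  have hc : L.pi ^ m ≠ 0 := zpow_ne_zero _ L.pi_ne
  refine ⟨x / (L.pi ^ m) ^ 2, L.pi ^ m, ?_, hc, ?_⟩
  · rw [map_div₀, L.val_eq hx, hm, map_pow, map_zpow₀, zpow_add₀ L.vpi_ne, pow_two]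
    exact div_self (mul_ne_zero (zpow_ne_zero _ L.vpi_ne) (zpow_ne_zero _ L.vpi_ne))
  · field_simp

end Loc

end Pool.Agent.BSDP
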