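import Pool.Agent.Lib.BSDP.D.Det
import Pool.Agent.Lib.BSDP.D.CV
import Pool.Agent.Lib.BSDP.D.Comp

/-!
Module D.Res of MP_48b749_nt (positive proportion). The closed point of a prime `π` of `k[t]`:
valuations of polynomials in the completion, the residue field `k[t] / π`, and the consequences of
detection and of good bases at this place.

PROOFS. `loc_mem`: `LocAt.mem_iff`, `BSDFF.poly_mem`. `loc_lt`: `LocAt.lt_iff` and
`BSDFF.Odd.dvd_iff_valuation_lt_one`. `loc_one`: not `< 1` and `≤ 1`. `loc_dense`: for `u ∈ O` there is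
`a ∈ k(t)` with `v (u - a) < 1` (`LocAt.dense` with `c = 1`), `a ∈ w.ring`, so `π ∤ a.denom`
(`BSDFF.ring_mem_iff`); let `q` with `q * a.denom ≡ 1 mod π` (`IsCoprime`), then
`p = a.num * q` satisfies `v (a - p) < 1`. `loc_pi`: `L.pi` and `π` have the same valuation: `π`
generates the maximal ideal of `w.ring` (`BSDFF.Odd.valuation_le_of_lt_one` with `g = π`), and
`L.pi` is close to an element of `k(t)`; or: `v π < 1` gives `π = L.pi * y`; and there is `a ∈ k(t)`
with `v (L.pi - a) < v (L.pi)`, so `v a = v (L.pi) < 1`, `w.ring.valuation a ≤ w.ring.valuation π`,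
i.e. `a / π ∈ w.ring`, `v (L.pi) = v a ≤ v π`. `loc_sq`: if `π ^ 2 ∤ p`, `p ≠ 0`, then
`v (L.pi ^ 2) < v p`: write `p = p'` or `p = π p'` with `π ∤ p'`.
`det_root_at`: `Loc.det_root` with `φ = w.toCompletion.comp (algebraMap k[X] (RatFunc k))`,
`mk = AdjoinRoot.mk π` (`AdjoinRoot.mk_surjective`, `AdjoinRoot.mk_eq_zero`); a normal basis over
`k(t)` maps to one over the completion.
`unit_at`: a good basis over `k[t]` is a good basis over `O` after `Cu.map w.toCompletion`
(`gram1 (map γ) (map b) = (gram1 γ b).map`), and `Loc.unit_of_good` with `loc_sq` applied to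
`4 A ^ 3 + 27 B ^ 2` squarefree (`π ^ 2 ∤`).
-/

set_option autoImplicit false

open Polynomial

namespace Pool.Agent.BSDP

private theorem gram1_map {S T : Type} [CommRing S] [CommRing T] (φ : S →+* T) {A B : S} (γ : Cu A B)
    (b : Fin 3 → Cu A B) : gram1 (Cu.map φ γ) (fun i => Cu.map φ (b i)) = (gram1 γ b).map φ := by
  ext i j
  simp only [gram1, Matrix.of_apply, Matrix.map_apply]
  rw [← map_mul, ← map_mul, Cu.map_z]

private theorem gram2_map {S T : Type} [CommRing S] [CommRing T] (φ : S →+* T) {A B : S} (γ : Cu A B)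
    (b : Fin 3 → Cu A B) : gram2 (Cu.map φ γ) (fun i => Cu.map φ (b i)) = (gram2 γ b).map φ := by
  ext i j
  simp only [gram2, Matrix.of_apply, Matrix.map_apply]
  rw [← map_mul, ← map_mul, Cu.map_y]

private theorem G0_map {S T : Type} [CommRing S] [CommRing T] (φ : S →+* T) : (G0 S).map φ = G0 T := by
  ext i j
  fin_cases i <;> fin_cases j <;> simp [G0]

private theorem mat_map {S T : Type} [CommRing S] [CommRing T] (φ : S →+* T) (t : Quin S) :
    t.mat.map φ = (t.map φ).mat := by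
  ext i j
  fin_cases i <;> fin_cases j <;> simp [Quin.mat, Quin.map, map_ofNat]

private theorem cc_mul {k : Type} [Field k] (p q : k[X]) : cc (p * q) = cc p * cc q := map_mul _ _ _

variable {k : Type} [Field k] {π : k[X]} (hπ : Irreducible π)
  (L : LocAt (BSDFF.placeOf π hπ))

include hπ

theorem loc_mem (p : k[X]) : (BSDFF.placeOf π hπ).toCompletion (cc p) ∈ L.O :=
  (L.mem_iff _).2 (BSDFF.poly_mem _ (BSDFF.X_mem_placeOf π hπ) p)

theorem loc_lt (p : k[X]) :
    L.O.valuation ((BSDFF.placeOf π hπ).toCompletion (cc p)) < 1 ↔ π ∣ p := by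
  rw [L.lt_iff, BSDFF.Odd.dvd_iff_valuation_lt_one hπ]

theorem loc_one (p : k[X]) :
    L.O.valuation ((BSDFF.placeOf π hπ).toCompletion (cc p)) = 1 ↔ ¬ π ∣ p := by
  rw [← loc_lt hπ L p, not_lt]
  have h := (L.O.valuation_le_one_iff _).2 (loc_mem hπ L p)
  exact ⟨fun h' => h'.ge, fun h' => le_antisymm h h'⟩

theorem loc_dense (u : (BSDFF.placeOf π hπ).ring.valuation.Completion) (hu : u ∈ L.O) :
    ∃ p : k[X], L.O.valuation (u - (BSDFF.placeOf π hπ).toCompletion (cc p)) < 1 := by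
  obtain ⟨a, ha⟩ := L.dense u 1 one_ne_zero
  rw [map_one] at ha
  have h1 : (BSDFF.placeOf π hπ).toCompletion a ∈ L.O := by
    have h2 : u - (BSDFF.placeOf π hπ).toCompletion a ∈ L.O :=
      (L.O.valuation_le_one_iff _).1 ha.le
    have h3 := sub_mem hu h2
    rwa [sub_sub_cancel] at h3
  have h2 : a ∈ (BSDFF.placeOf π hπ).ring := (L.mem_iff a).1 h1
  have h3 : ¬ π ∣ a.denom :=
    (BSDFF.ring_mem_iff _ (BSDFF.X_mem_placeOf π hπ) hπ (BSDFF.nonunit_placeOf π hπ) a).1 h2
  obtain ⟨s, q, hsq⟩ := (hπ.coprime_iff_not_dvd).2 h3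
  have hd0 : algebraMap k[X] (RatFunc k) a.denom ≠ 0 := by
    simpa using RatFunc.denom_ne_zero a
  have h4 : a * cc a.denom = cc a.num := (eq_div_iff hd0).mp (RatFunc.num_div_denom a).symm
  refine ⟨a.num * q, ?_⟩
  have h5 : a - cc (a.num * q) = a * cc s * cc π := by
    have h6 : cc s * cc π + cc q * cc a.denom = 1 := by
      rw [← map_mul, ← map_mul, ← map_add, hsq, map_one]
    rw [cc_mul, ← h4]
    linear_combination (-a) * h6
  have h6 : u - (BSDFF.placeOf π hπ).toCompletion (cc (a.num * q)) =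
      (u - (BSDFF.placeOf π hπ).toCompletion a) + (BSDFF.placeOf π hπ).toCompletion (a * cc s * cc π) := by
    rw [← h5, map_sub]
    ring
  rw [h6]
  refine Valuation.map_add_lt _ ha ?_
  rw [map_mul, map_mul, map_mul, map_mul]
  refine lt_of_le_of_lt (mul_le_of_le_one_left' (mul_le_one' ?_ ?_)) ((loc_lt hπ L π).2 dvd_rfl)
  · exact (L.O.valuation_le_one_iff _).2 h1
  · exact (L.O.valuation_le_one_iff _).2 (loc_mem hπ L s)

theorem loc_pi :
    L.O.valuation ((BSDFF.placeOf π hπ).toCompletion (cc π)) = L.O.valuation L.pi := by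
  apply le_antisymm
  · obtain ⟨y, hy, h⟩ := (L.pi_gen _).1 ((loc_lt hπ L π).2 dvd_rfl)
    rw [h, map_mul]
    exact mul_le_of_le_one_right' ((L.O.valuation_le_one_iff _).2 hy)
  · obtain ⟨a, ha⟩ := L.dense L.pi L.pi L.pi_ne
    have h1 := Valuation.map_sub_eq_of_lt_left _ ha
    rw [sub_sub_cancel] at h1
    have h2 : (BSDFF.placeOf π hπ).ring.valuation a < 1 := by
      rw [← L.lt_iff, h1]
      exact L.toLoc.pi_lt
    have h3 := BSDFF.Odd.valuation_le_of_lt_one hπ (dvd_refl π)
      (fun h => hπ.not_isUnit (by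
        obtain ⟨c, hc⟩ := h
        refine IsUnit.of_mul_eq_one c (mul_left_cancel₀ hπ.ne_zero ?_)
        rw [mul_one, ← mul_assoc, ← pow_two]
        exact hc.symm)) a h2
    have hπ0 : cc π ≠ 0 := by simpa using hπ.ne_zero
    have h4 : a / cc π ∈ (BSDFF.placeOf π hπ).ring := by
      rw [← ValuationSubring.valuation_le_one_iff, map_div₀]
      exact div_le_one_of_le₀ h3 zero_le
    have h5 := (L.O.valuation_le_one_iff _).2 ((L.mem_iff _).2 h4)
    rw [← h1]
    have h6 : a = (a / cc π) * cc π := by field_simp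
    rw [h6, map_mul, map_mul]
    exact mul_le_of_le_one_left' h5

/-- a polynomial divisible by `π` exactly once is a uniformizer -/
theorem loc_unif {p : k[X]} (h : π ∣ p) (h' : ¬ π ^ 2 ∣ p) :
    L.O.valuation ((BSDFF.placeOf π hπ).toCompletion (cc p)) = L.O.valuation L.pi := by
  obtain ⟨q, rfl⟩ := h
  have hq : ¬ π ∣ q := by
    rintro ⟨r, rfl⟩
    exact h' ⟨r, by ring⟩
  rw [cc_mul, map_mul, map_mul, (loc_one hπ L q).2 hq, mul_one, loc_pi hπ L]

theorem loc_sq {p : k[X]} (h : ¬ π ^ 2 ∣ p) :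
    L.O.valuation (L.pi ^ 2) < L.O.valuation ((BSDFF.placeOf π hπ).toCompletion (cc p)) := by
  have h1 := L.toLoc.pi_lt
  have h0 : 0 < L.O.valuation L.pi := by
    rw [Valuation.pos_iff]
    exact L.pi_ne
  have h2 : L.O.valuation (L.pi ^ 2) < L.O.valuation L.pi := by
    rw [map_pow, pow_two]
    exact mul_lt_of_lt_one_right h0 h1
  by_cases hp : π ∣ p
  · rw [loc_unif hπ L hp h]
    exact h2
  · rw [(loc_one hπ L p).2 hp]
    exact h2.trans h1

theorem det_root_at {A B : k[X]} {γ : LK A B}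
    (h : haveI : Fact (Irreducible π) := ⟨hπ⟩; DetG π γ) :
    ∃ ξ, RootAt L.toLoc ((BSDFF.placeOf π hπ).toCompletion (cc A))
        ((BSDFF.placeOf π hπ).toCompletion (cc B)) ξ ∧
      ¬ IsSquare ((Cu.map (BSDFF.placeOf π hπ).toCompletion γ).ev ξ) := by
  have : Fact (Irreducible π) := ⟨hπ⟩
  obtain ⟨b, t, hn, hd⟩ := h
  refine Loc.det_root L.toLoc ((BSDFF.placeOf π hπ).toCompletion.comp (algebraMap k[X] (RatFunc k)))
    (AdjoinRoot.mk π) AdjoinRoot.mk_surjective (loc_mem hπ L) (fun p => ?_) (loc_dense hπ L)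
    (γ := Cu.map (BSDFF.placeOf π hπ).toCompletion γ)
    (b := fun i => Cu.map (BSDFF.placeOf π hπ).toCompletion (b i)) (t := t) ?_ hd
  · rw [AdjoinRoot.mk_eq_zero]
    exact (loc_lt hπ L p).symm
  · constructor
    · refine (gram1_map _ γ b).trans ?_
      rw [hn.g1]
      exact G0_map _
    · refine (gram2_map _ γ b).trans ?_
      rw [hn.g2]
      exact mat_map _ _

theorem unit_at {A B : k[X]} (hsq : ¬ π ^ 2 ∣ 4 * A ^ 3 + 27 * B ^ 2) {γ : LK A B}
    {b : Fin 3 → Cu ((BSDFF.placeOf π hπ).toCompletion (cc A))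
      ((BSDFF.placeOf π hπ).toCompletion (cc B))}
    (h : Good L.O.toSubring (Cu.map (BSDFF.placeOf π hπ).toCompletion γ) b) :
    UnitAt L.toLoc (Cu.map (BSDFF.placeOf π hπ).toCompletion γ) := by
  refine Loc.unit_of_good L.toLoc (loc_mem hπ L A) (loc_mem hπ L B) ?_ h
  have h1 := loc_sq hπ L hsq
  simpa only [map_add, map_mul, map_pow, map_ofNat] using h1

/-- a good basis over `k[t]` is good at every finite place -/
theorem good_at {A B : k[X]} {γ : LK A B} {b : Fin 3 → LK A B} (h : Good (polys k) γ b) :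
    Good L.O.toSubring (Cu.map (BSDFF.placeOf π hπ).toCompletion γ)
      (fun i => Cu.map (BSDFF.placeOf π hπ).toCompletion (b i)) := by
  have key : ∀ x ∈ polys k, (BSDFF.placeOf π hπ).toCompletion x ∈ L.O.toSubring := by
    rintro x ⟨p, rfl⟩
    exact loc_mem hπ L p
  constructor
  · intro i j
    rw [gram1_map]
    exact key _ (h.g1 i j)
  · intro i j
    rw [gram2_map]
    exact key _ (h.g2 i j)
  · obtain ⟨u, hu, hu'⟩ := h.unit
    refine ⟨_, key u hu, ?_⟩
    rw [gram1_map]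
    have h1 : ((gram1 γ b).map (BSDFF.placeOf π hπ).toCompletion).det =
        (BSDFF.placeOf π hπ).toCompletion (gram1 γ b).det := by
      rw [RingHom.map_det]
      rfl
    rw [h1, ← map_mul, hu', map_one]

end Pool.Agent.BSDP
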