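import Pool.Agent.Lib.BSDP.D.Unit

/-!
Module D.Sel of MP_48b749_nt (positive proportion). Places where the twisting factor `D` is a unit:
a class satisfying the local condition has a good basis.

PROOF of `good_of_sel`. If `γ` is a square: `unit_of_sq`, `good_of_unit`. Otherwise
`γ * lin x D = κ * κ`, `y ≠ 0`, `y ^ 2 = x ^ 3 + A D ^ 2 x + B D ^ 3 = norm (lin x D)` (`Cu.norm_lin`),
so by `eq_mul_sq`, `γ = lin x D * ρ * ρ`, and `norm ρ ≠ 0` as `norm γ ≠ 0`. By `Good.of_scale` (in the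
form: a good basis for `lin x D` times `ρ⁻¹`) it is enough to find a good basis of `s = lin x D`.
(1) `x ∉ O`: then `v (x) > 1`, and `(y / x) ^ 2 = x * (1 + A (D / x) ^ 2 + B (D / x) ^ 3)` where the
second factor is `1` modulo the maximal ideal, hence a square (`Loc.sq_of_one`) and nonzero; so
`x = ρ₀ ^ 2` is a square and `s = ρ₀ ^ 2 * (1 - (D / x) θ) = lin 1 (D / x) * ρ₀ * ρ₀`, `D / x` in the
maximal ideal; `ε = lin 1 c`, `c = D / x`, has coordinates in `O` and norm `1 + A c ^ 2 + B c ^ 3`, a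
unit: `UnitAt L s`, `good_of_unit`.
(2) `x ∈ O`: then `y ∈ O`. Basis `b 0 = 1`, `b 1 = θ`, `b 2 = (1 / y) (x ^ 2 + A D ^ 2 + x D θ +
D ^ 2 θ ^ 2)`: `gram1 s b = [[0, -D, 0], [-D, x, 0], [0, 0, D ^ 2]]`, determinant `- D ^ 4`, a unit, and
`gram2 s b = [[-D, x, 0], [x, A D, y], [0, y, x D]]`; entries in `O`. (Check: entrywise `field_simp`
and `ring` / `linear_combination` with the equation of `y ^ 2`.)
`lin_one_unit` is the computation used in (1) and later at the places dividing `D`.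
-/

set_option autoImplicit false

open Polynomial

namespace Pool.Agent.BSDP

variable {F : Type} [Field F] (L : Loc F) {A B : F}

private theorem w_lt {A B : F} (hA : A ∈ L.O) (hB : B ∈ L.O) {c : F}
    (hc : L.O.valuation c < 1) : L.O.valuation (A * c ^ 2 + B * c ^ 3) < 1 := by
  have hA' := (L.O.valuation_le_one_iff A).2 hA
  have hB' := (L.O.valuation_le_one_iff B).2 hB
  refine Valuation.map_add_lt _ ?_ ?_
  · rw [map_mul, map_pow]
    calc _ ≤ 1 * L.O.valuation c ^ 2 := mul_le_mul_left hA' _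
      _ = L.O.valuation c ^ 2 := one_mul _
      _ < 1 := pow_lt_one₀ zero_le hc (by norm_num)
  · rw [map_mul, map_pow]
    calc _ ≤ 1 * L.O.valuation c ^ 3 := mul_le_mul_left hB' _
      _ = L.O.valuation c ^ 3 := one_mul _
      _ < 1 := pow_lt_one₀ zero_le hc (by norm_num)

/-- `1 - c θ` with `c` in the maximal ideal is a unit -/
theorem Loc.lin_one_unit (hA : A ∈ L.O) (hB : B ∈ L.O) {c : F} (hc : L.O.valuation c < 1) :
    L.O.valuation (Cu.lin A B 1 c).norm = 1 := by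
  have h : (Cu.lin A B 1 c).norm = 1 + (A * c ^ 2 + B * c ^ 3) := by
    rw [Cu.norm_lin]; ring
  rw [h]
  exact Valuation.map_one_add_of_lt _ (w_lt L hA hB hc)

/-- if `D / x` is in the maximal ideal and `x` is the abscissa of a point of the twist then
`x - D θ` is a unit `1 - c θ` up to squares -/
theorem Loc.lin_of_large (hA : A ∈ L.O) (hB : B ∈ L.O) {D x y : F} (hx : x ≠ 0)
    (hD : L.O.valuation (D / x) < 1) (hy : y ^ 2 = x ^ 3 + A * D ^ 2 * x + B * D ^ 3) :
    ∃ ρ₀ : F, ρ₀ ≠ 0 ∧ x = ρ₀ ^ 2 ∧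
      Cu.lin A B x D = Cu.lin A B 1 (D / x) * algebraMap F (Cu A B) ρ₀ *
        algebraMap F (Cu A B) ρ₀ := by
  have h1 := w_lt L hA hB hD
  obtain ⟨s, hs⟩ : IsSquare (1 + (A * (D / x) ^ 2 + B * (D / x) ^ 3)) := by
    refine L.sq_of_one ?_
    rwa [add_sub_cancel_left]
  have hs0 : s ≠ 0 := by
    rintro rfl
    have h2 := Valuation.map_one_add_of_lt _ h1
    rw [hs] at h2
    simp at h2
  have h3 : x = (y / (x * s)) ^ 2 := by
    rw [div_pow, hy, mul_pow, eq_div_iff (by positivity)]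
    rw [pow_two s, ← hs]
    field_simp
    ring
  have h4 : y / (x * s) ≠ 0 := by
    intro h
    rw [h] at h3
    apply hx
    rw [h3]
    ring
  refine ⟨y / (x * s), h4, h3, ?_⟩
  generalize y / (x * s) = r at h3 h4
  subst h3
  ext
  · simp [Cu.lin, Cu.mul_x]; ring
  · simp [Cu.lin, Cu.mul_y]; field_simp
  · simp [Cu.lin, Cu.mul_z]

private theorem good_lin (hA : A ∈ L.O) (hB : B ∈ L.O) {D x y : F} (hD : L.O.valuation D = 1)
    (hx : x ∈ L.O) (hy0 : y ≠ 0) (hy : y ^ 2 = x ^ 3 + A * D ^ 2 * x + B * D ^ 3) :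
    ∃ b, Good L.O.toSubring (Cu.lin A B x D) b := by
  have hDO : D ∈ L.O := (L.O.valuation_le_one_iff D).1 hD.le
  have hD0 : D ≠ 0 := by
    rintro rfl
    simp at hD
  have hDi : D⁻¹ ∈ L.O := by
    rw [← L.O.valuation_le_one_iff, map_inv₀, hD, inv_one]
  have hyO : y ∈ L.O := by
    have h1 : y ^ 2 ∈ L.O := by
      rw [hy]
      exact L.O.add_mem _ _ (L.O.add_mem _ _ (pow_mem hx 3)
        (L.O.mul_mem _ _ (L.O.mul_mem _ _ hA (pow_mem hDO 2)) hx))
        (L.O.mul_mem _ _ hB (pow_mem hDO 3))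
    rw [← L.O.valuation_le_one_iff, map_pow] at h1
    rw [← L.O.valuation_le_one_iff]
    by_contra h2
    push Not at h2
    exact absurd h1 (not_le.2 (one_lt_pow₀ h2 (by norm_num)))
  have hx3 : x ^ 3 = y ^ 2 - A * D ^ 2 * x - B * D ^ 3 := by rw [hy]; ring
  set b : Fin 3 → Cu A B := ![⟨1, 0, 0⟩, ⟨0, 1, 0⟩,
    ⟨(x ^ 2 + A * D ^ 2) / y, x * D / y, D ^ 2 / y⟩] with hb
  have g1 : gram1 (Cu.lin A B x D) b = !![0, -D, 0; -D, x, 0; 0, 0, D ^ 2] := by
    ext i j
    fin_cases i <;> fin_cases j <;>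
      simp [gram1, hb, Cu.lin, Cu.mul_x, Cu.mul_y, Cu.mul_z] <;> field_simp <;>
      first | done | ring1 | linear_combination hy | linear_combination -hy | linear_combination (D ^ 2) * hy | linear_combination (-D ^ 2) * hy | linear_combination (x) * hy | linear_combination (-x) * hy | linear_combination (-x * D) * hy | skip
  have g2 : gram2 (Cu.lin A B x D) b = !![-D, x, 0; x, A * D, y; 0, y, x * D] := by
    ext i j
    fin_cases i <;> fin_cases j <;>
      simp [gram2, hb, Cu.lin, Cu.mul_x, Cu.mul_y, Cu.mul_z] <;> field_simp <;>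
      first | done | ring1 | linear_combination hy | linear_combination -hy | linear_combination (D ^ 2) * hy | linear_combination (-D ^ 2) * hy | linear_combination (x) * hy | linear_combination (-x) * hy | linear_combination (-x * D) * hy | skip
  refine ⟨b, ⟨?_, ?_, ?_⟩⟩
  · intro i j
    rw [g1]
    have e1 : (0 : F) ∈ L.O := L.O.zero_mem
    have e2 : -D ∈ L.O := L.O.neg_mem _ hDO
    have e3 : D ^ 2 ∈ L.O := pow_mem hDO 2
    fin_cases i <;> fin_cases j <;> simp <;> first | done | assumption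
  · intro i j
    rw [g2]
    have e1 : (0 : F) ∈ L.O := L.O.zero_mem
    have e2 : -D ∈ L.O := L.O.neg_mem _ hDO
    have e3 : A * D ∈ L.O := L.O.mul_mem _ _ hA hDO
    have e4 : x * D ∈ L.O := L.O.mul_mem _ _ hx hDO
    fin_cases i <;> fin_cases j <;> simp <;> first | done | assumption
  · refine ⟨-(D⁻¹ ^ 4), L.O.neg_mem _ (pow_mem hDi 4), ?_⟩
    rw [g1, Matrix.det_fin_three]
    simp
    ring_nf
    simp [hD0]

theorem Loc.good_of_sel (hA : A ∈ L.O) (hB : B ∈ L.O) {D : F} (hD : L.O.valuation D = 1)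
    {γ : Cu A B} (hγ : γ.norm ≠ 0) (h : SelF D γ) : ∃ b, Good L.O.toSubring γ b := by
  rcases h with h | ⟨x, y, hy0, hy, κ, hκ⟩
  · exact L.good_of_unit hA hB (L.unit_of_sq hγ h)
  have hs : (Cu.lin A B x D).norm ≠ 0 := by
    rw [Cu.norm_lin]
    intro h0
    apply hy0
    have : y ^ 2 = 0 := by rw [hy, ← h0]
    simpa using this
  obtain ⟨ρ, hρ⟩ := eq_mul_sq hs hκ
  have hρ0 : ρ.norm ≠ 0 := by
    intro h0
    apply hγ
    rw [hρ, Cu.norm_mul, h0, mul_zero]
  obtain ⟨ρ', h1, h2⟩ := exists_inv hρ0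
  have h3 : Cu.lin A B x D = γ * ρ' * ρ' := by
    rw [hρ]
    calc Cu.lin A B x D = Cu.lin A B x D * 1 * 1 := by ring
      _ = Cu.lin A B x D * (ρ * ρ') * (ρ * ρ') := by rw [h1]
      _ = _ := by ring
  suffices h4 : ∃ b, Good L.O.toSubring (Cu.lin A B x D) b by
    obtain ⟨b, hb⟩ := h4
    rw [h3] at hb
    exact ⟨_, hb.of_scale⟩
  by_cases hx : x ∈ L.O
  · exact good_lin L hA hB hD hx hy0 hy
  · have hx1 : 1 < L.O.valuation x := by
      rw [← L.O.valuation_le_one_iff] at hx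
      exact not_le.1 hx
    have hx0 : x ≠ 0 := by
      rintro rfl
      simp at hx1
    have hc : L.O.valuation (D / x) < 1 := by
      rw [map_div₀, hD, one_div]
      exact inv_lt_one_of_one_lt₀ hx1
    obtain ⟨ρ₀, hρ₀, -, h5⟩ := L.lin_of_large hA hB hx0 hc hy
    refine L.good_of_unit hA hB ⟨Cu.lin A B 1 (D / x), algebraMap F (Cu A B) ρ₀, h5, ?_, ?_, ?_, ?_,
      L.lin_one_unit hA hB hc⟩
    · rw [Cu.norm_algebraMap]
      exact pow_ne_zero 3 hρ₀
    · exact L.O.one_mem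
    · exact L.O.neg_mem _ ((L.O.valuation_le_one_iff _).1 hc.le)
    · exact L.O.zero_mem

end Pool.Agent.BSDP
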