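import Pool.Agent.Lib.BSDP.D.Ord
import Pool.Agent.Lib.BSDP.B.Fin

/-!
Module D.Uni of MP_48b749_nt (positive proportion). A unimodular ternary quadratic form over the
valuation ring of a local field is isotropic.

PROOF. Let `κ` be the residue field of `O` (finite, `2 ≠ 0` in it by `L.two`), `Ḡ` the reduction of
`G` (lift the entries to `O` first). `det Ḡ ≠ 0`. `fin_isotropic` gives `v̄ ≠ 0` with `q̄ (v̄) = 0`;
lift it to `v : Fin 3 → F` with entries in `O`. Then `q (v)` has valuation `< 1`, and
`g = G.mulVec v` has some entry `g j` with valuation `1` (`Ḡ v̄ ≠ 0`). Look for an isotropic vector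
`v + x e_j`: `q (v + x e_j) = q (v) + 2 g_j x + G j j x ^ 2`. If `G j j = 0`: `x = - q (v) / (2 g_j)`.
Otherwise the discriminant `g_j ^ 2 - G j j q (v)` is a square `s ^ 2` by `Loc.sq_of_near`
(`c = g_j`); choose the sign of `s` with `v (s - g_j) < 1` (from `s ^ 2 - g_j ^ 2` of valuation
`< 1` and `2 g_j` a unit: one of `s - g_j`, `s + g_j` has valuation `< 1`) and
`x = (s - g_j) / G j j` — to be safe use `x = - q (v) / (s + g_j)`, which is the same element when
`G j j ≠ 0` and also works for `G j j = 0` (`s = g_j`): check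
`q (v) + 2 g_j x + G j j x ^ 2 = 0` from `s ^ 2 = g_j ^ 2 - G j j q (v)` (`field_simp`,
`linear_combination`). `v (x) = v (q v) < 1`, so `v + x e_j` has the same reduction `v̄ ≠ 0` and is
`≠ 0`.
-/

set_option autoImplicit false

open Polynomial

namespace Pool.Agent.BSDP

variable {F : Type} [Field F] (L : Loc F)

open Matrix in
private theorem quad_single {G : Matrix (Fin 3) (Fin 3) F} (hG : G.IsSymm) (v : Fin 3 → F)
    (j : Fin 3) (x : F) :
    dotProduct (v + Pi.single j x) (G.mulVec (v + Pi.single j x)) =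
      dotProduct v (G.mulVec v) + 2 * (G.mulVec v) j * x + G j j * x ^ 2 := by
  have h1 : dotProduct v (G.mulVec (Pi.single j x)) = x * (G.mulVec v) j := by
    rw [Matrix.dotProduct_mulVec, ← Matrix.mulVec_transpose, hG.eq, dotProduct_single, mul_comm]
  have h2 : (G.mulVec (Pi.single j x)) j = G j j * x := by
    rw [Matrix.mulVec_single]
    simp [Matrix.col]
  rw [Matrix.mulVec_add, dotProduct_add, add_dotProduct, add_dotProduct, h1, single_dotProduct,
    single_dotProduct, h2]
  ring

theorem Loc.isotropic (G : Matrix (Fin 3) (Fin 3) F) (hG : G.IsSymm) (hO : ∀ i j, G i j ∈ L.O)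
    (hu : L.O.valuation G.det = 1) : Isotropic G := by
  have := L.fin
  let res := IsLocalRing.residue L.O
  have hres : ∀ a : L.O, res a = 0 ↔ L.O.valuation (a : F) < 1 := by
    intro a
    rw [← L.O.valuation_lt_one_iff a]
    exact IsLocalRing.residue_eq_zero_iff a
  have hres1 : ∀ a : L.O, res a ≠ 0 ↔ L.O.valuation (a : F) = 1 := by
    intro a
    rw [Ne, hres, not_lt]
    exact ⟨fun h => le_antisymm (L.O.valuation_le_one a) h, fun h => h.ge⟩
  let G' : Matrix (Fin 3) (Fin 3) L.O := Matrix.of fun i j => ⟨G i j, hO i j⟩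
  have hG' : G'.map L.O.subtype = G := by
    ext i j
    rfl
  have hdet : ((G'.det : L.O) : F) = G.det := by
    have h := RingHom.map_det L.O.subtype G'
    rw [RingHom.mapMatrix_apply, hG'] at h
    exact h
  let Gb := G'.map res
  have hGbs : Gb.IsSymm := by
    ext i j
    have h : G j i = G i j := hG.apply i j
    have h' : (⟨G j i, hO j i⟩ : L.O) = ⟨G i j, hO i j⟩ := Subtype.ext h
    exact congrArg res h'
  have hGbd : Gb.det ≠ 0 := by
    have h := RingHom.map_det res G'
    rw [RingHom.mapMatrix_apply] at h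
    change Gb.det ≠ 0
    rw [← h]
    rw [hres1, hdet]
    exact hu
  have h2 : (2 : IsLocalRing.ResidueField L.O) ≠ 0 := by
    have h := (hres1 2).2 (by
      have : ((2 : L.O) : F) = 2 := map_ofNat L.O.subtype 2
      rw [this]
      exact L.two)
    rwa [map_ofNat] at h
  obtain ⟨vb, hvb, hq⟩ := fin_isotropic h2 Gb hGbs hGbd
  have hsurj : Function.Surjective res := IsLocalRing.residue_surjective
  choose v' hv' using fun i => hsurj (vb i)
  have hvb' : (fun i => res (v' i)) = vb := funext hv'
  have hg' : ∀ i, res ((G'.mulVec v') i) = (Gb.mulVec vb) i := by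
    intro i
    rw [RingHom.map_mulVec res G' v' i, ← hvb']
    rfl
  have hq' : res (dotProduct v' (G'.mulVec v')) = 0 := by
    rw [RingHom.map_dotProduct, ← hq, ← hvb']
    congr 1
  set v : Fin 3 → F := fun i => (v' i : F) with hv
  have hgv : ∀ i, (((G'.mulVec v') i : L.O) : F) = (G.mulVec v) i := by
    intro i
    have h := RingHom.map_mulVec L.O.subtype G' v' i
    rw [hG'] at h
    exact h
  have hqv : ((dotProduct v' (G'.mulVec v') : L.O) : F) = dotProduct v (G.mulVec v) := by
    have h := RingHom.map_dotProduct L.O.subtype v' (G'.mulVec v')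
    refine h.trans ?_
    congr 1
  have hgne : Gb.mulVec vb ≠ 0 := fun h => hvb (Matrix.eq_zero_of_mulVec_eq_zero hGbd h)
  obtain ⟨j, hj⟩ := Function.ne_iff.1 hgne
  rw [← hg' j, Pi.zero_apply] at hj
  have hgj : L.O.valuation ((G.mulVec v) j) = 1 := by
    rw [← hgv j]
    exact (hres1 _).1 hj
  set g := (G.mulVec v) j with hgdef
  set q := dotProduct v (G.mulVec v) with hqdef
  have hqlt : L.O.valuation q < 1 := by
    rw [← hqv]
    exact (hres _).1 hq'
  have hGq : L.O.valuation (G j j * q) < 1 := by
    rw [map_mul]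
    exact (mul_le_of_le_one_left' ((L.O.valuation_le_one_iff _).2 (hO j j))).trans_lt hqlt
  have hu1 : L.O.valuation (g ^ 2 - G j j * q) = 1 := by
    have h1 : L.O.valuation (g ^ 2) = 1 := by rw [map_pow, hgj, one_pow]
    rw [Valuation.map_sub_eq_of_lt_left _ (by rwa [h1]), h1]
  obtain ⟨r, hr⟩ := L.sq_of_residue (u := g ^ 2 - G j j * q) (c := g) hu1 (by
    have : g ^ 2 - G j j * q - g ^ 2 = -(G j j * q) := by ring
    rwa [this, Valuation.map_neg])
  have hr1 : L.O.valuation r ≤ 1 := by
    have h : L.O.valuation r ^ 2 = 1 := by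
      rw [← map_pow, pow_two, ← hr, hu1]
    by_contra hc
    rw [not_le] at hc
    have := one_lt_pow₀ hc two_ne_zero
    rw [h] at this
    exact lt_irrefl _ this
  have hex : ∃ s : F, s ^ 2 = g ^ 2 - G j j * q ∧ L.O.valuation (s - g) < 1 := by
    by_cases h1 : L.O.valuation (r - g) < 1
    · exact ⟨r, by rw [hr]; ring, h1⟩
    refine ⟨-r, by rw [hr]; ring, ?_⟩
    have h3 : -r - g = -(r + g) := by ring
    rw [h3, Valuation.map_neg]
    by_contra h4
    rw [not_lt] at h1 h4
    have h5 : L.O.valuation ((r - g) * (r + g)) < 1 := by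
      have : (r - g) * (r + g) = -(G j j * q) := by
        linear_combination (-1 : F) * hr
      rwa [this, Valuation.map_neg]
    rw [map_mul] at h5
    exact absurd h5 (not_lt.2 (one_le_mul h1 h4))
  obtain ⟨s, hs, hsg⟩ := hex
  have hsum : L.O.valuation (s + g) = 1 := by
    have h1 : L.O.valuation (2 * g) = 1 := by rw [map_mul, L.two, hgj, mul_one]
    have h3 : s + g = (s - g) + 2 * g := by ring
    rw [h3, Valuation.map_add_eq_of_lt_right _ (by rwa [h1]), h1]
  have hsum0 : s + g ≠ 0 := by
    intro h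
    rw [h, map_zero] at hsum
    exact zero_ne_one hsum
  refine ⟨v + Pi.single j (-q / (s + g)), ?_, ?_⟩
  · have hx : L.O.valuation (-q / (s + g)) < 1 := by
      rwa [map_div₀, hsum, div_one, Valuation.map_neg]
    obtain ⟨i, hi⟩ := Function.ne_iff.1 hvb
    rw [← hv' i, Pi.zero_apply] at hi
    have hvi : L.O.valuation (v i) = 1 := (hres1 _).1 hi
    intro h0
    have h1 := congrFun h0 i
    rw [Pi.add_apply, Pi.zero_apply] at h1
    have h3 : L.O.valuation ((Pi.single j (-q / (s + g)) : Fin 3 → F) i) < 1 := by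
      by_cases hij : i = j
      · subst hij
        rwa [Pi.single_eq_same]
      · rw [Pi.single_eq_of_ne hij, map_zero]
        exact zero_lt_one
    have h4 := Valuation.map_add_eq_of_lt_left L.O.valuation (x := v i)
      (y := (Pi.single j (-q / (s + g)) : Fin 3 → F) i) (by rwa [hvi])
    rw [h1, map_zero, hvi] at h4
    exact zero_ne_one h4
  · rw [quad_single hG, ← hqdef, ← hgdef]
    field_simp
    linear_combination q * hs

end Pool.Agent.BSDP
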