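import Pool.Agent.Lib.BSDP.D.Uni
import Pool.Agent.Lib.BSDP.A.Gram
import Pool.Agent.Lib.BSDP.A.Field

/-!
Module D.Unit of MP_48b749_nt (positive proportion). Unit classes, good bases and isotropy.

PROOFS. `iso_iff`: `Iso η ↔ Isotropic (gram1 η (std A B))`: `u = ⟨v 0, v 1, v 2⟩` and
`(η * u * u).z = v ⬝ᵥ gram1 η std *ᵥ v` (ring). `iso_of_gram`: for any basis with `det coord ≠ 0`, an
isotropic vector of `gram1 η b` gives one of `η`: `u = v 0 • b 0 + v 1 • b 1 + v 2 • b 2`, nonzero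
because `coord b` is invertible. `iso_sq`: `(η κ² u u) = η (κ u)(κ u)`, `κ` invertible
(`exists_inv`). `iso_of_sq`: `η = κ²`: `u = κ⁻¹`, `(1).z = 0`. `iso_lin`: `u = 1`,
`(Cu.lin A B s d).z = 0`; `Iso (lin * κ * κ)` by `iso_sq`; a constant factor does not matter.
`iso_of_good`: `Loc.isotropic` for `gram1 γ b` (symmetric, unimodular) and `iso_of_gram`.
`good_of_unit`: `γ = ε * κ * κ`: basis `κ⁻¹ * std`: `gram1 γ = gram1 ε std` has entries
`ε.z, ε.y, ε.x - A ε.z, …` in `O` and determinant `- norm ε`; the same for `gram2`.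
`unit_mul`: `γ γ' = (ε ε') (κ κ')²`. `unit_of_sq`: `ε = 1`.
-/

set_option autoImplicit false

open Polynomial

namespace Pool.Agent.BSDP

section field

variable {F : Type} [Field F] {A B : F}

private theorem quad_eq (η : Cu A B) (b : Fin 3 → Cu A B) (v : Fin 3 → F) :
    (η * (v 0 • b 0 + v 1 • b 1 + v 2 • b 2) * (v 0 • b 0 + v 1 • b 1 + v 2 • b 2)).z =
      dotProduct v ((gram1 η b).mulVec v) := by
  simp only [dotProduct, Matrix.mulVec, Fin.sum_univ_three, gram1, Matrix.of_apply, Cu.mul_z,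
    Cu.mul_x, Cu.mul_y, Cu.add_x, Cu.add_y, Cu.add_z, Cu.smul_x, Cu.smul_y, Cu.smul_z]
  ring

theorem iso_of_gram {η : Cu A B} {b : Fin 3 → Cu A B} (hb : (coord b).det ≠ 0)
    (h : Isotropic (gram1 η b)) : Iso η := by
  obtain ⟨v, hv, hv'⟩ := h
  refine ⟨v 0 • b 0 + v 1 • b 1 + v 2 • b 2, ?_, by rw [quad_eq, hv']⟩
  intro h0
  apply hv
  apply Matrix.eq_zero_of_vecMul_eq_zero hb
  have hx := congrArg Cu.x h0
  have hy := congrArg Cu.y h0
  have hz := congrArg Cu.z h0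
  simp only [Cu.add_x, Cu.add_y, Cu.add_z, Cu.smul_x, Cu.smul_y, Cu.smul_z, Cu.zero_x, Cu.zero_y,
    Cu.zero_z] at hx hy hz
  funext j
  simp only [Matrix.vecMul, dotProduct, Fin.sum_univ_three, Pi.zero_apply]
  fin_cases j
  · simpa [coord] using hx
  · simpa [coord] using hy
  · simpa [coord] using hz

theorem iso_iff (η : Cu A B) : Iso η ↔ Isotropic (gram1 η (std A B)) := by
  constructor
  · rintro ⟨u, hu, hu'⟩
    refine ⟨![u.x, u.y, u.z], ?_, ?_⟩
    · intro h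
      apply hu
      ext
      · exact congrFun h 0
      · exact congrFun h 1
      · exact congrFun h 2
    · rw [← quad_eq]
      have : (![u.x, u.y, u.z] : Fin 3 → F) 0 • std A B 0 + (![u.x, u.y, u.z] : Fin 3 → F) 1 •
          std A B 1 + (![u.x, u.y, u.z] : Fin 3 → F) 2 • std A B 2 = u := by
        ext <;> simp [std]
      rw [this, hu']
  · intro h
    refine iso_of_gram ?_ h
    rw [coord_std, Matrix.det_one]
    exact one_ne_zero

theorem iso_sq (η κ : Cu A B) (hκ : κ.norm ≠ 0) : Iso (η * κ * κ) ↔ Iso η := by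
  obtain ⟨v, hv, -⟩ := exists_inv hκ
  constructor
  · rintro ⟨u, hu, hu'⟩
    refine ⟨κ * u, ?_, ?_⟩
    · intro h
      apply hu
      calc u = (κ * v) * u := by rw [hv, one_mul]
        _ = v * (κ * u) := by ring
        _ = 0 := by rw [h, mul_zero]
    · rw [← hu']
      congr 1
      ring
  · rintro ⟨u, hu, hu'⟩
    refine ⟨v * u, ?_, ?_⟩
    · intro h
      apply hu
      calc u = (κ * v) * u := by rw [hv, one_mul]
        _ = κ * (v * u) := by ring
        _ = 0 := by rw [h, mul_zero]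
    · rw [← hu']
      congr 1
      calc η * κ * κ * (v * u) * (v * u) = η * (κ * v * u) * (κ * v * u) := by ring
        _ = η * u * u := by rw [hv, one_mul]

theorem iso_of_sq {η : Cu A B} (hη : η.norm ≠ 0) (h : IsSquare η) : Iso η := by
  obtain ⟨κ, hκ⟩ := h
  have hn : κ.norm ≠ 0 := by
    intro h0
    apply hη
    rw [hκ, Cu.norm_mul, h0, mul_zero]
  have h1 : Iso (1 * κ * κ) := by
    rw [iso_sq _ _ hn]
    refine ⟨1, ?_, by simp⟩
    intro h
    have := congrArg Cu.x h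
    simp at this
  rwa [one_mul, ← hκ] at h1

theorem iso_lin (s d c : F) (κ : Cu A B) (hκ : κ.norm ≠ 0) :
    Iso (algebraMap F (Cu A B) c * Cu.lin A B s d * κ * κ) := by
  rw [iso_sq _ _ hκ]
  refine ⟨1, ?_, ?_⟩
  · intro h
    have := congrArg Cu.x h
    simp at this
  · rw [mul_one, mul_one, Cu.mul_z]
    simp [Cu.lin]

end field

section loc

variable {F : Type} [Field F] (L : Loc F) {A B : F}

private theorem good_det {γ : Cu A B} {b : Fin 3 → Cu A B} (h : Good L.O.toSubring γ b) :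
    L.O.valuation (gram1 γ b).det = 1 := by
  obtain ⟨u1, hu1, hu1'⟩ := h.unit
  have hdetO : (gram1 γ b).det ∈ L.O.toSubring := by
    rw [Matrix.det_fin_three]
    have := h.g1
    exact sub_mem (add_mem (add_mem (sub_mem (sub_mem (mul_mem (mul_mem (this _ _) (this _ _))
      (this _ _)) (mul_mem (mul_mem (this _ _) (this _ _)) (this _ _))) (mul_mem (mul_mem
      (this _ _) (this _ _)) (this _ _))) (mul_mem (mul_mem (this _ _) (this _ _)) (this _ _)))
      (mul_mem (mul_mem (this _ _) (this _ _)) (this _ _)))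
      (mul_mem (mul_mem (this _ _) (this _ _)) (this _ _))
  have h1 : L.O.valuation u1 ≤ 1 := (L.O.valuation_le_one_iff _).2 hu1
  have h2 : L.O.valuation (gram1 γ b).det ≤ 1 := (L.O.valuation_le_one_iff _).2 hdetO
  have h3 : L.O.valuation u1 * L.O.valuation (gram1 γ b).det = 1 := by
    rw [← map_mul, hu1', map_one]
  refine le_antisymm h2 ?_
  calc (1 : _) = L.O.valuation u1 * L.O.valuation (gram1 γ b).det := h3.symm
    _ ≤ 1 * L.O.valuation (gram1 γ b).det := mul_le_mul' h1 le_rfl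
    _ = _ := one_mul _

theorem Loc.iso_of_good {γ : Cu A B} {b : Fin 3 → Cu A B} (h : Good L.O.toSubring γ b) :
    Iso γ := by
  have hv := good_det L h
  refine iso_of_gram (b := b) ?_ (L.isotropic _ (gram1_symm γ b) h.g1 hv)
  intro h0
  rw [det_gram1, h0] at hv
  simp at hv

private def Mem3 (R : Subring F) (u : Cu A B) : Prop := u.x ∈ R ∧ u.y ∈ R ∧ u.z ∈ R

private theorem Mem3.mul {R : Subring F} (hA : A ∈ R) (hB : B ∈ R) {u v : Cu A B}
    (hu : Mem3 R u) (hv : Mem3 R v) : Mem3 R (u * v) := by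
  obtain ⟨a1, a2, a3⟩ := hu
  obtain ⟨b1, b2, b3⟩ := hv
  refine ⟨?_, ?_, ?_⟩
  · rw [Cu.mul_x]
    exact sub_mem (mul_mem a1 b1) (mul_mem hB (add_mem (mul_mem a2 b3) (mul_mem a3 b2)))
  · rw [Cu.mul_y]
    exact sub_mem (sub_mem (add_mem (mul_mem a1 b2) (mul_mem a2 b1))
      (mul_mem hA (add_mem (mul_mem a2 b3) (mul_mem a3 b2)))) (mul_mem hB (mul_mem a3 b3))
  · rw [Cu.mul_z]
    exact sub_mem (add_mem (add_mem (mul_mem a1 b3) (mul_mem a2 b2)) (mul_mem a3 b1))
      (mul_mem hA (mul_mem a3 b3))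

private theorem mem3_std (R : Subring F) (i : Fin 3) : Mem3 R (std A B i) := by
  fin_cases i
  · exact ⟨one_mem _, zero_mem _, zero_mem _⟩
  · exact ⟨zero_mem _, one_mem _, zero_mem _⟩
  · exact ⟨zero_mem _, zero_mem _, one_mem _⟩

theorem Loc.good_of_unit (hA : A ∈ L.O) (hB : B ∈ L.O) {γ : Cu A B} (h : UnitAt L γ) :
    ∃ b, Good L.O.toSubring γ b := by
  obtain ⟨ε, κ, hγ, hκ, hx, hy, hz, hn⟩ := h
  obtain ⟨v, hv, -⟩ := exists_inv hκ
  have hε : γ * v * v = ε := by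
    rw [hγ]
    calc ε * κ * κ * v * v = ε * (κ * v) * (κ * v) := by ring
      _ = ε := by rw [hv, mul_one, mul_one]
  have hm : Mem3 L.O.toSubring ε := ⟨hx, hy, hz⟩
  refine ⟨fun i => v * std A B i, ?_, ?_, ?_⟩
  · intro i j
    rw [← gram_scale1, hε]
    exact ((hm.mul hA hB (mem3_std _ i)).mul hA hB (mem3_std _ j)).2.2
  · intro i j
    rw [← gram_scale2, hε]
    exact ((hm.mul hA hB (mem3_std _ i)).mul hA hB (mem3_std _ j)).2.1
  · rw [← gram_scale1, hε, det_gram1_std]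
    have hn0 : ε.norm ≠ 0 := by
      intro h0
      rw [h0, map_zero] at hn
      exact zero_ne_one hn
    refine ⟨(-ε.norm)⁻¹, ?_, inv_mul_cancel₀ (neg_ne_zero.2 hn0)⟩
    change (-ε.norm)⁻¹ ∈ L.O
    rw [← L.O.valuation_le_one_iff, map_inv₀, Valuation.map_neg, hn, inv_one]

theorem Loc.iso_of_unit (hA : A ∈ L.O) (hB : B ∈ L.O) {γ : Cu A B} (h : UnitAt L γ) : Iso γ := by
  obtain ⟨b, hb⟩ := L.good_of_unit hA hB h
  exact L.iso_of_good hb

theorem Loc.unit_mul (hA : A ∈ L.O) (hB : B ∈ L.O) {γ γ' : Cu A B} (h : UnitAt L γ)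
    (h' : UnitAt L γ') : UnitAt L (γ * γ') := by
  obtain ⟨ε, κ, hγ, hκ, hx, hy, hz, hn⟩ := h
  obtain ⟨ε', κ', hγ', hκ', hx', hy', hz', hn'⟩ := h'
  have hm : Mem3 L.O.toSubring ε := ⟨hx, hy, hz⟩
  have hm' : Mem3 L.O.toSubring ε' := ⟨hx', hy', hz'⟩
  obtain ⟨m1, m2, m3⟩ := hm.mul hA hB hm'
  refine ⟨ε * ε', κ * κ', ?_, ?_, m1, m2, m3, ?_⟩
  · rw [hγ, hγ']
    ring
  · rw [Cu.norm_mul]
    exact mul_ne_zero hκ hκ'
  · rw [Cu.norm_mul, map_mul, hn, hn', mul_one]

theorem Loc.unit_of_sq {γ : Cu A B} (hγ : γ.norm ≠ 0) (h : IsSquare γ) : UnitAt L γ := by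
  obtain ⟨κ, hκ⟩ := h
  refine ⟨1, κ, by rw [hκ, one_mul], ?_, one_mem _, zero_mem _, zero_mem _, ?_⟩
  · intro h0
    apply hγ
    rw [hκ, Cu.norm_mul, h0, mul_zero]
  · rw [Cu.norm_one, map_one]

end loc

end Pool.Agent.BSDP
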