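import Pool.Agent.Lib.BSDP.D.Sel

/-!
Module D.Vi of MP_48b749_nt (positive proportion). Places dividing the twisting factor `D` exactly
once, where `X ^ 3 + A X + B` has exactly one root `ξ` modulo the maximal ideal: the local condition
of the twist by `D` is `{unit classes 1 - c θ} ∪ {ramified classes}`.

PROOFS. `hh_unit`: let `x ∈ O` and `h = x ^ 2 + ξ x + ξ ^ 2 + A`. Then
`(2 x + ξ) ^ 2 + (3 ξ ^ 2 + 4 A) = 4 h`. If `v h < 1` then `v (- (3 ξ ^ 2 + 4 A) - (2 x + ξ) ^ 2) < 1`,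
and `- (3 ξ ^ 2 + 4 A)` is a unit, so it is a square by `sq_of_residue`, against `RootAt.ns`.
`f_factor`: `x ^ 3 + A x + B = (x - ξ) * (x ^ 2 + ξ x + ξ ^ 2 + A)` (root equation).
`root_unique`: another root `x ∈ F`: it is integral (monic equation) — not needed if one argues: if
`x ^ 3 + A x + B = 0`, `x ≠ ξ`, then `x ^ 2 + ξ x + ξ ^ 2 + A = 0` and
`- (3 ξ ^ 2 + 4 A) = (2 x + ξ) ^ 2` is a square, contradiction.
`sel_ram`: (i) `γ` a square, `γ = κ * κ`: first alternative: `unit_of_sq`, and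
`ev ξ γ = (ev ξ κ) ^ 2` (`ev_mul`). (ii) `γ = lin x D * ρ * ρ` (as in D.Sel, `eq_mul_sq`), `y ≠ 0`,
`y ^ 2 = x ^ 3 + A D ^ 2 x + B D ^ 3`. If `x ≠ 0` and `v (D / x) < 1`: by `lin_of_large`,
`γ = lin 1 c * (ρ₀ ρ) ^ 2`, `c = D / x` in the maximal ideal: `UnitAt` by `lin_one_unit`, and
`ev ξ γ = (1 - c ξ) (ρ₀ ev ξ ρ) ^ 2` is a square (`sq_of_one`). Otherwise `x = D x'` with
`x' ∈ O` (`x' = x / D`, `v (x / D) ≤ 1`; `x' = 0` if `x = 0`): `y ^ 2 = D ^ 3 (x' ^ 3 + A x' + B)`, so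
`D * f (x') = (y / D) ^ 2`, `s = y / D ≠ 0`. `ord D + ord (f x') = 2 ord s` is even and `ord D = 1`
(`v D = v pi`), `f x' ∈ O`, so `ord (f x') ≥ 1`, `v (f x') < 1`; with `f_factor` and `hh_unit`,
`v (x' - ξ) < 1`. And `lin x D = algebraMap D * lin x' 1`. So `RamAt`.
-/

set_option autoImplicit false

open Polynomial

namespace Pool.Agent.BSDP

variable {F : Type} [Field F] (L : Loc F) {A B ξ : F}

theorem RootAt.hh_unit {L : Loc F} (hA : A ∈ L.O) (hr : RootAt L A B ξ) {x : F} (hx : x ∈ L.O) :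
    L.O.valuation (x ^ 2 + ξ * x + ξ ^ 2 + A) = 1 := by
  by_contra hne
  have hmem : x ^ 2 + ξ * x + ξ ^ 2 + A ∈ L.O :=
    L.O.add_mem _ _ (L.O.add_mem _ _ (L.O.add_mem _ _ (pow_mem hx 2) (L.O.mul_mem _ _ hr.mem hx))
      (pow_mem hr.mem 2)) hA
  have hlt : L.O.valuation (x ^ 2 + ξ * x + ξ ^ 2 + A) < 1 :=
    lt_of_le_of_ne ((L.O.valuation_le_one_iff _).2 hmem) hne
  apply hr.ns
  refine L.sq_of_residue (c := 2 * x + ξ) ?_ ?_
  · rw [Valuation.map_neg]; exact hr.u2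
  · have e : -(3 * ξ ^ 2 + 4 * A) - (2 * x + ξ) ^ 2 = -(4 * (x ^ 2 + ξ * x + ξ ^ 2 + A)) := by ring
    have h4 : L.O.valuation 4 = 1 := by
      have : (4 : F) = 2 * 2 := by norm_num
      rw [this, map_mul, L.two, one_mul]
    rw [e, Valuation.map_neg, map_mul, h4, one_mul]
    exact hlt

theorem RootAt.f_factor {L : Loc F} (hr : RootAt L A B ξ) (x : F) :
    x ^ 3 + A * x + B = (x - ξ) * (x ^ 2 + ξ * x + ξ ^ 2 + A) := by
  linear_combination hr.root

theorem RootAt.root_unique {L : Loc F} (hr : RootAt L A B ξ) {x : F}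
    (hx : x ^ 3 + A * x + B = 0) : x = ξ := by
  by_contra hne
  have h1 := hr.f_factor x
  rw [hx] at h1
  have h2 : x ^ 2 + ξ * x + ξ ^ 2 + A = 0 :=
    (mul_eq_zero.1 h1.symm).resolve_left (sub_ne_zero.2 hne)
  exact hr.ns ⟨2 * x + ξ, by linear_combination (-4) * h2⟩

theorem Loc.sel_ram (hA : A ∈ L.O) (hB : B ∈ L.O) {D : F}
    (hD : L.O.valuation D = L.O.valuation L.pi) (hr : RootAt L A B ξ) {γ : Cu A B}
    (hγ : γ.norm ≠ 0) (h : SelF D γ) :
    (UnitAt L γ ∧ IsSquare (γ.ev ξ)) ∨ RamAt L D ξ γ := by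
  have hD0 : D ≠ 0 := by
    rintro rfl
    rw [map_zero] at hD
    exact L.pi_ne ((map_eq_zero L.O.valuation).1 hD.symm)
  rcases h with h | ⟨x, y, hy, he, κ, hκ⟩
  · left
    refine ⟨L.unit_of_sq hγ h, ?_⟩
    obtain ⟨κ, rfl⟩ := h
    exact ⟨κ.ev ξ, ev_mul hr.root κ κ⟩
  · have hn : (Cu.lin A B x D).norm = y ^ 2 := by rw [Cu.norm_lin, he]
    have hn0 : (Cu.lin A B x D).norm ≠ 0 := by rw [hn]; exact pow_ne_zero 2 hy
    obtain ⟨ρ, hρ⟩ := eq_mul_sq hn0 hκ
    have hρ0 : ρ.norm ≠ 0 := by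
      intro h0
      apply hγ
      rw [hρ, Cu.norm_mul, h0, mul_zero]
    by_cases hc : x ≠ 0 ∧ L.O.valuation (D / x) < 1
    · left
      obtain ⟨ρ₀, h1, h2, h3⟩ := L.lin_of_large hA hB hc.1 hc.2 he
      have hcO : D / x ∈ L.O := (L.O.valuation_le_one_iff _).1 hc.2.le
      have hγ' : γ = Cu.lin A B 1 (D / x) * (algebraMap F (Cu A B) ρ₀ * ρ) *
          (algebraMap F (Cu A B) ρ₀ * ρ) := by
        rw [hρ, h3]; ring
      refine ⟨⟨Cu.lin A B 1 (D / x), algebraMap F (Cu A B) ρ₀ * ρ, hγ', ?_, L.O.one_mem,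
        L.O.neg_mem _ hcO, L.O.zero_mem, L.lin_one_unit hA hB hc.2⟩, ?_⟩
      · rw [Cu.norm_mul, Cu.norm_algebraMap]
        exact mul_ne_zero (pow_ne_zero 3 h1) hρ0
      · have h4 : IsSquare (1 - D / x * ξ) := by
          apply L.sq_of_one
          have e : 1 - D / x * ξ - 1 = -(D / x * ξ) := by ring
          rw [e, Valuation.map_neg, map_mul]
          exact mul_lt_one_of_lt_of_le hc.2 ((L.O.valuation_le_one_iff _).2 hr.mem)
        obtain ⟨r, hr'⟩ := h4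
        refine ⟨r * (algebraMap F (Cu A B) ρ₀ * ρ).ev ξ, ?_⟩
        rw [hγ', ev_mul hr.root, ev_mul hr.root, ev_lin, hr']
        ring
    · right
      have hx' : x / D ∈ L.O := by
        rw [← L.O.valuation_le_one_iff]
        by_cases hx0 : x = 0
        · rw [hx0, zero_div, map_zero]; exact zero_le_one
        · have h5 : ¬ L.O.valuation (D / x) < 1 := fun h6 => hc ⟨hx0, h6⟩
          rw [not_lt] at h5
          have e : x / D = (D / x)⁻¹ := by rw [inv_div]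
          rw [e, map_inv₀]
          exact inv_le_one_of_one_le₀ h5
      have hxD : x = D * (x / D) := by field_simp
      have hs : y / D ≠ 0 := div_ne_zero hy hD0
      have he' : D * ((x / D) ^ 3 + A * (x / D) + B) = (y / D) ^ 2 := by
        rw [div_pow y, he]
        field_simp
      have hf0 : (x / D) ^ 3 + A * (x / D) + B ≠ 0 := by
        intro h0
        rw [h0, mul_zero] at he'
        exact hs (pow_eq_zero_iff two_ne_zero |>.1 he'.symm)
      have hfO : (x / D) ^ 3 + A * (x / D) + B ∈ L.O :=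
        L.O.add_mem _ _ (L.O.add_mem _ _ (pow_mem hx' 3) (L.O.mul_mem _ _ hA hx')) hB
      have ho : L.ord D = 1 := by
        have a1 := (L.val_le_iff hD0 L.pi_ne).1 hD.le
        have a2 := (L.val_le_iff L.pi_ne hD0).1 hD.ge
        rw [L.ord_pi] at a1 a2
        omega
      have ho2 : L.ord D + L.ord ((x / D) ^ 3 + A * (x / D) + B) = 2 * L.ord (y / D) := by
        rw [← L.ord_mul hD0 hf0, he', L.ord_pow hs]
        push_cast
        ring
      have ho3 := (L.mem_iff_ord hf0).1 hfO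
      have ho4 : L.O.valuation ((x / D) ^ 3 + A * (x / D) + B) < 1 := by
        rw [L.lt_one_iff_ord hf0]
        omega
      rw [hr.f_factor, map_mul, hr.hh_unit hA hx', mul_one] at ho4
      refine ⟨x / D, y / D, ρ, hx', ho4, hs, he', hρ0, ?_⟩
      rw [hρ]
      congr 2
      ext
      · simp only [Cu.lin, Cu.mul_x, Cu.algebraMap_x, Cu.algebraMap_y, Cu.algebraMap_z]
        rw [mul_div_cancel₀ _ hD0]; ring
      · simp only [Cu.lin, Cu.mul_y, Cu.algebraMap_x, Cu.algebraMap_y, Cu.algebraMap_z]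
        ring
      · simp only [Cu.lin, Cu.mul_z, Cu.algebraMap_x, Cu.algebraMap_y, Cu.algebraMap_z]
        ring

end Pool.Agent.BSDP
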